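import Mathlib
import Pool.Agent.H329R2.AD.Defs

/-!
Additive divisor problem, task B2: asymptotics of `∑_{m ≤ y, e ∣ m} d_k(m)/m`.
-/

set_option autoImplicit false

open Finset Filter Topology Pool.Agent.H329R2.AD

namespace Pool.Agent.H459R2.ADB2

/-! ### elementary inequalities -/

lemma pow_sub_le (x y : ℝ) (hy : 0 ≤ y) (hxy : y ≤ x) (k : ℕ) :
    x ^ (k + 1) - y ^ (k + 1) ≤ (k + 1) * x ^ k * (x - y) := by
  induction k with
  | zero => simp
  | succ n ih =>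
    have hx : 0 ≤ x := hy.trans hxy
    have h1 : y ^ (n + 1) ≤ x ^ (n + 1) := pow_le_pow_left₀ hy hxy _
    calc x ^ (n + 1 + 1) - y ^ (n + 1 + 1)
        = x * (x ^ (n + 1) - y ^ (n + 1)) + (x - y) * y ^ (n + 1) := by ring
      _ ≤ x * ((n + 1) * x ^ n * (x - y)) + (x - y) * x ^ (n + 1) := by
          gcongr
      _ = ((n + 1 : ℕ) + 1 : ℝ) * x ^ (n + 1) * (x - y) := by push_cast; ring

lemma le_pow_sub (x y : ℝ) (hy : 0 ≤ y) (hxy : y ≤ x) (k : ℕ) :
    (k + 1) * y ^ k * (x - y) ≤ x ^ (k + 1) - y ^ (k + 1) := by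
  induction k with
  | zero => simp
  | succ n ih =>
    have hx : 0 ≤ x := hy.trans hxy
    have h1 : y ^ (n + 1) ≤ x ^ (n + 1) := pow_le_pow_left₀ hy hxy _
    have h0 : 0 ≤ x ^ (n + 1) - y ^ (n + 1) := by linarith
    calc ((n + 1 : ℕ) + 1 : ℝ) * y ^ (n + 1) * (x - y)
        = y * ((n + 1) * y ^ n * (x - y)) + (x - y) * y ^ (n + 1) := by push_cast; ring
      _ ≤ x * (x ^ (n + 1) - y ^ (n + 1)) + (x - y) * y ^ (n + 1) := by
          have h2 : 0 ≤ (n + 1) * y ^ n * (x - y) := by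
            have : 0 ≤ x - y := by linarith
            positivity
          have h3 : y * ((n + 1) * y ^ n * (x - y)) ≤ x * ((n + 1) * y ^ n * (x - y)) :=
            mul_le_mul_of_nonneg_right hxy h2
          have h4 : x * ((n + 1) * y ^ n * (x - y)) ≤ x * (x ^ (n + 1) - y ^ (n + 1)) :=
            mul_le_mul_of_nonneg_left ih hx
          linarith
      _ = x ^ (n + 1 + 1) - y ^ (n + 1 + 1) := by ring

/-! ### the weight `g` -/

/-- `(1/(i+1)) (log⁺ (y/(i+1)))^k` -/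
noncomputable def g (k : ℕ) (y : ℝ) (i : ℕ) : ℝ :=
  1 / ((i : ℝ) + 1) * (max (Real.log (y / ((i : ℝ) + 1))) 0) ^ k

lemma g_nonneg (k : ℕ) (y : ℝ) (i : ℕ) : 0 ≤ g k y i := by
  unfold g
  positivity

lemma g_anti (k : ℕ) (y : ℝ) (hy : 1 ≤ y) (i : ℕ) : g k y (i + 1) ≤ g k y i := by
  unfold g
  have h1 : (0 : ℝ) < (i : ℝ) + 1 := by positivity
  have h2 : y / (((i + 1 : ℕ) : ℝ) + 1) ≤ y / ((i : ℝ) + 1) := by
    apply div_le_div_of_nonneg_left (by linarith) h1
    push_cast; linarith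
  have h3 : (0 : ℝ) < y / (((i + 1 : ℕ) : ℝ) + 1) := by positivity
  have h4 : Real.log (y / (((i + 1 : ℕ) : ℝ) + 1)) ≤ Real.log (y / ((i : ℝ) + 1)) :=
    Real.log_le_log h3 h2
  gcongr
  · linarith

lemma g_zero (k : ℕ) (y : ℝ) (hy : 1 ≤ y) : g k y 0 = Real.log y ^ k := by
  unfold g
  have : 0 ≤ Real.log y := Real.log_nonneg hy
  simp [max_eq_left this]

lemma g_of_le (k : ℕ) (y : ℝ) (hy : 1 ≤ y) (a : ℕ) (ha : a ∈ Icc 1 ⌊y⌋₊) :
    g k y (a - 1) = 1 / (a : ℝ) * Real.log (y / a) ^ k := by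
  rw [Finset.mem_Icc] at ha
  have h1 : ((a - 1 : ℕ) : ℝ) + 1 = a := by
    rw [Nat.cast_sub ha.1]; simp
  unfold g
  rw [h1]
  have h2 : (0 : ℝ) < a := by exact_mod_cast ha.1
  have h3 : (a : ℝ) ≤ y := (Nat.le_floor_iff (by linarith)).1 ha.2
  have h4 : 0 ≤ Real.log (y / a) := Real.log_nonneg (by rw [le_div_iff₀ h2]; linarith)
  rw [max_eq_left h4]

/-- the primitive -/
noncomputable def P (k : ℕ) (y : ℝ) (i : ℕ) : ℝ :=
  (Real.log (y / ((i : ℝ) + 1))) ^ (k + 1) / (k + 1)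

lemma P_step (k : ℕ) (y : ℝ) (hy : 1 ≤ y) (i : ℕ) (hi : ((i : ℝ) + 2) ≤ y) :
    g k y (i + 1) ≤ P k y i - P k y (i + 1) ∧ P k y i - P k y (i + 1) ≤ g k y i := by
  have h1 : (0 : ℝ) < (i : ℝ) + 1 := by positivity
  have h2 : (0 : ℝ) < (i : ℝ) + 1 + 1 := by positivity
  have c : (((i + 1 : ℕ) : ℝ)) = (i : ℝ) + 1 := by push_cast; ring
  set L := Real.log (y / ((i : ℝ) + 1)) with hL
  set L' := Real.log (y / ((i : ℝ) + 1 + 1)) with hL'
  have hL'0 : 0 ≤ L' := Real.log_nonneg (by rw [le_div_iff₀ h2]; linarith)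
  have hy0 : 0 < y := by linarith
  have hLL : L - L' = Real.log (((i : ℝ) + 1 + 1) / ((i : ℝ) + 1)) := by
    rw [hL, hL', Real.log_div hy0.ne' h1.ne', Real.log_div hy0.ne' h2.ne',
      Real.log_div h2.ne' h1.ne']
    ring
  have hup : L - L' ≤ 1 / ((i : ℝ) + 1) := by
    rw [hLL]
    have := Real.log_le_sub_one_of_pos (show 0 < ((i : ℝ) + 1 + 1) / ((i : ℝ) + 1) by positivity)
    refine this.trans (le_of_eq ?_)
    field_simp
    ring
  have hlo : 1 / ((i : ℝ) + 1 + 1) ≤ L - L' := by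
    rw [hLL]
    have := Real.one_sub_inv_le_log_of_pos
      (show 0 < ((i : ℝ) + 1 + 1) / ((i : ℝ) + 1) by positivity)
    refine le_trans (le_of_eq ?_) this
    field_simp
    ring
  have hle : L' ≤ L := by
    have : (0 : ℝ) ≤ 1 / ((i : ℝ) + 1 + 1) := by positivity
    linarith
  have hL0 : 0 ≤ L := hL'0.trans hle
  have e1 : g k y i = 1 / ((i : ℝ) + 1) * L ^ k := by
    unfold g; rw [max_eq_left hL0]
  have e2 : g k y (i + 1) = 1 / ((i : ℝ) + 1 + 1) * L' ^ k := by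
    unfold g; rw [c, max_eq_left hL'0]
  have e3 : P k y i - P k y (i + 1) = (L ^ (k + 1) - L' ^ (k + 1)) / (k + 1) := by
    unfold P; rw [c]; ring
  rw [e1, e2, e3]
  have hk : (0 : ℝ) < (k : ℝ) + 1 := by positivity
  constructor
  · rw [le_div_iff₀ hk]
    have := le_pow_sub L L' hL'0 hle k
    refine le_trans ?_ this
    have h5 : 0 ≤ L' ^ k := by positivity
    nlinarith [mul_le_mul_of_nonneg_left hlo (mul_nonneg hk.le h5)]
  · rw [div_le_iff₀ hk]
    have := pow_sub_le L L' hL'0 hle k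
    refine this.trans ?_
    have h5 : 0 ≤ L ^ k := by positivity
    nlinarith [mul_le_mul_of_nonneg_left hup (mul_nonneg hk.le h5)]

lemma sum_g (k : ℕ) (y : ℝ) (hy : 1 ≤ y) :
    |∑ i ∈ range ⌊y⌋₊, g k y i - Real.log y ^ (k + 1) / (k + 1)| ≤ (1 + Real.log y) ^ k := by
  have hlog : 0 ≤ Real.log y := Real.log_nonneg hy
  obtain ⟨N, hN⟩ : ∃ N, ⌊y⌋₊ = N + 1 := by
    have : 1 ≤ ⌊y⌋₊ := (Nat.one_le_floor_iff y).2 hy
    exact ⟨⌊y⌋₊ - 1, by omega⟩
  have hNy : ((N : ℝ) + 1) ≤ y := by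
    have := Nat.floor_le (show 0 ≤ y by linarith)
    rw [hN] at this
    push_cast at this
    exact this
  have hyN : y < (N : ℝ) + 1 + 1 := by
    have := Nat.lt_floor_add_one y
    rw [hN] at this
    push_cast at this
    exact this
  have key : ∀ M ≤ N, ∑ i ∈ range M, g k y (i + 1) ≤ P k y 0 - P k y M ∧
      P k y 0 - P k y M ≤ ∑ i ∈ range M, g k y i := by
    intro M hM
    induction M with
    | zero => simp
    | succ M ih =>
      obtain ⟨h1, h2⟩ := ih (by omega)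
      have h3 : ((M : ℝ) + 2) ≤ y := by
        have : ((M : ℝ) + 1) ≤ N := by exact_mod_cast hM
        linarith
      obtain ⟨h4, h5⟩ := P_step k y hy M h3
      rw [Finset.sum_range_succ, Finset.sum_range_succ]
      constructor <;> linarith
  obtain ⟨h1, h2⟩ := key N le_rfl
  have hP0 : P k y 0 = Real.log y ^ (k + 1) / (k + 1) := by unfold P; simp
  have h3 : 0 ≤ P k y N ∧ P k y N ≤ 1 := by
    have h4 : (0 : ℝ) < (N : ℝ) + 1 := by positivity
    have h5 : 0 ≤ Real.log (y / ((N : ℝ) + 1)) :=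
      Real.log_nonneg (by rw [le_div_iff₀ h4]; linarith)
    have h6 : Real.log (y / ((N : ℝ) + 1)) ≤ 1 := by
      have h7 : y / ((N : ℝ) + 1) ≤ 2 := by
        rw [div_le_iff₀ h4]
        have : (0 : ℝ) ≤ N := Nat.cast_nonneg _
        linarith
      have h8 : Real.log (y / ((N : ℝ) + 1)) ≤ Real.log 2 :=
        Real.log_le_log (by positivity) h7
      have := Real.log_two_lt_d9
      linarith
    unfold P
    refine ⟨by positivity, ?_⟩
    rw [div_le_one (by positivity)]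
    have h9 : Real.log (y / ((N : ℝ) + 1)) ^ (k + 1) ≤ 1 := pow_le_one₀ h5 h6
    have : (0 : ℝ) ≤ k := Nat.cast_nonneg _
    linarith
  have h4 : Real.log y ^ k ≤ (1 + Real.log y) ^ k := pow_le_pow_left₀ hlog (by linarith) _
  have h5 : (1 : ℝ) ≤ (1 + Real.log y) ^ k := one_le_pow₀ (by linarith)
  rw [hN, abs_le]
  constructor
  · rw [Finset.sum_range_succ]
    have := g_nonneg k y N
    linarith [h3.2]
  · rw [Finset.sum_range_succ', g_zero k y hy]
    linarith [h3.1]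

/-! ### Abel summation -/

lemma abel (b : ℕ → ℝ) (g : ℕ → ℝ) (B : ℝ) (hg : ∀ i, g (i + 1) ≤ g i)
    (hB : ∀ n, |∑ i ∈ range n, b i| ≤ B) (N : ℕ) :
    |∑ i ∈ range N, b i * g i - (∑ i ∈ range N, b i) * g N| ≤ B * (g 0 - g N) := by
  induction N with
  | zero => simp
  | succ N ih =>
    rw [Finset.sum_range_succ, Finset.sum_range_succ (fun i => b i)]
    have e : ∑ i ∈ range N, b i * g i + b N * g N - (∑ i ∈ range N, b i + b N) * g (N + 1) =
      (∑ i ∈ range N, b i * g i - (∑ i ∈ range N, b i) * g N) +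
        (∑ i ∈ range (N + 1), b i) * (g N - g (N + 1)) := by
      rw [Finset.sum_range_succ]; ring
    rw [e]
    refine (abs_add_le _ _).trans ?_
    rw [abs_mul, abs_of_nonneg (show 0 ≤ g N - g (N + 1) by linarith [hg N])]
    have h1 := mul_le_mul_of_nonneg_right (hB (N + 1)) (show 0 ≤ g N - g (N + 1) by linarith [hg N])
    linarith

lemma abel' (b : ℕ → ℝ) (g : ℕ → ℝ) (B : ℝ) (hg : ∀ i, g (i + 1) ≤ g i) (h0 : ∀ i, 0 ≤ g i)
    (hB : ∀ n, |∑ i ∈ range n, b i| ≤ B) (N : ℕ) :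
    |∑ i ∈ range N, b i * g i| ≤ B * g 0 := by
  have h1 := abel b g B hg hB N
  have h2 : |(∑ i ∈ range N, b i) * g N| ≤ B * g N := by
    rw [abs_mul, abs_of_nonneg (h0 N)]
    exact mul_le_mul_of_nonneg_right (hB N) (h0 N)
  calc |∑ i ∈ range N, b i * g i|
      = |(∑ i ∈ range N, b i * g i - (∑ i ∈ range N, b i) * g N) +
          (∑ i ∈ range N, b i) * g N| := by ring_nf
    _ ≤ _ := abs_add_le _ _
    _ ≤ B * (g 0 - g N) + B * g N := add_le_add h1 h2
    _ = B * g 0 := by ring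

/-! ### periodic functions -/

variable {e : ℕ} [NeZero e]

/-- mean of `w` -/
noncomputable def mean (w : ZMod e → ℝ) : ℝ := (∑ c, w c) / e

lemma sum_range_zmod (h : ZMod e → ℝ) : ∑ i ∈ range e, h ((i : ℕ) : ZMod e) = ∑ c, h c := by
  refine Finset.sum_nbij' (fun i => ((i : ℕ) : ZMod e)) (fun c => c.val) ?_ ?_ ?_ ?_ ?_
  · intro a _; exact Finset.mem_univ _
  · intro a _; exact Finset.mem_range.2 (ZMod.val_lt a)
  · intro a ha
    rw [ZMod.val_natCast, Nat.mod_eq_of_lt (Finset.mem_range.1 ha)]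
  · intro a _
    exact ZMod.natCast_zmod_val a
  · intro a _; rfl

lemma abs_mean_le (w : ZMod e → ℝ) (hw : ∀ c, |w c| ≤ 1) : |mean w| ≤ 1 := by
  unfold mean
  have he : (0 : ℝ) < e := by exact_mod_cast Nat.pos_of_ne_zero (NeZero.ne e)
  rw [abs_div, abs_of_pos he, div_le_one he]
  refine (Finset.abs_sum_le_sum_abs _ _).trans ?_
  refine (Finset.sum_le_sum (fun c _ => hw c)).trans ?_
  simp [ZMod.card]

lemma sum_shift (w : ZMod e → ℝ) (n : ℕ) :
    ∑ i ∈ range e, (w (((n + i : ℕ) : ZMod e) + 1) - mean w) = 0 := by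
  have he : (0 : ℝ) < e := by exact_mod_cast Nat.pos_of_ne_zero (NeZero.ne e)
  rw [Finset.sum_sub_distrib]
  have h1 : ∑ i ∈ range e, w (((n + i : ℕ) : ZMod e) + 1) = ∑ c, w c := by
    have h2 := sum_range_zmod (fun c : ZMod e => w (c + ((n : ZMod e) + 1)))
    have h3 : ∑ c : ZMod e, w (c + ((n : ZMod e) + 1)) = ∑ c, w c :=
      Equiv.sum_comp (Equiv.addRight ((n : ZMod e) + 1)) w
    rw [← h3, ← h2]
    refine Finset.sum_congr rfl fun i _ => ?_
    congr 1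
    push_cast
    ring
  rw [h1]
  unfold mean
  simp
  field_simp
  ring

lemma partial_bound (w : ZMod e → ℝ) (hw : ∀ c, |w c| ≤ 1) (n : ℕ) :
    |∑ i ∈ range n, (w (((i : ℕ) : ZMod e) + 1) - mean w)| ≤ 2 * e := by
  have hm := abs_mean_le w hw
  induction n using Nat.strong_induction_on with
  | _ n ih =>
    rcases Nat.lt_or_ge n e with hn | hn
    · refine (Finset.abs_sum_le_sum_abs _ _).trans ?_
      have : ∀ i ∈ range n, |w (((i : ℕ) : ZMod e) + 1) - mean w| ≤ 2 := by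
        intro i _
        have := abs_sub (w (((i : ℕ) : ZMod e) + 1)) (mean w)
        linarith [hw (((i : ℕ) : ZMod e) + 1)]
      refine (Finset.sum_le_sum this).trans ?_
      simp
      have : (n : ℝ) ≤ e := by exact_mod_cast hn.le
      linarith
    · obtain ⟨m, rfl⟩ : ∃ m, n = m + e := ⟨n - e, by omega⟩
      rw [Finset.sum_range_add]
      have h1 := sum_shift w m
      rw [h1, add_zero]
      have he := Nat.pos_of_ne_zero (NeZero.ne e)
      exact ih m (by omega)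

/-- the main one-variable lemma -/
lemma one_var (k : ℕ) (w : ZMod e → ℝ) (hw : ∀ c, |w c| ≤ 1) (y : ℝ) (hy : 1 ≤ y) :
    |∑ a ∈ Icc 1 ⌊y⌋₊, w (a : ZMod e) * (1 / (a : ℝ) * Real.log (y / a) ^ k) -
      mean w * (Real.log y ^ (k + 1) / (k + 1))| ≤ (2 * e + 1) * (1 + Real.log y) ^ k := by
  have hlog : 0 ≤ Real.log y := Real.log_nonneg hy
  have hm := abs_mean_le w hw
  have e1 : ∑ a ∈ Icc 1 ⌊y⌋₊, w (a : ZMod e) * (1 / (a : ℝ) * Real.log (y / a) ^ k) =
      ∑ i ∈ range ⌊y⌋₊, w (((i : ℕ) : ZMod e) + 1) * g k y i := by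
    have : ∑ a ∈ Icc 1 ⌊y⌋₊, w (a : ZMod e) * (1 / (a : ℝ) * Real.log (y / a) ^ k) =
        ∑ a ∈ Icc 1 ⌊y⌋₊, w (((a - 1 : ℕ) : ZMod e) + 1) * g k y (a - 1) := by
      refine Finset.sum_congr rfl fun a ha => ?_
      rw [g_of_le k y hy a ha]
      rw [Finset.mem_Icc] at ha
      have : (((a - 1 : ℕ) : ZMod e) + 1) = (a : ZMod e) := by
        rw [Nat.cast_sub ha.1]; simp
      rw [this]
    rw [this]
    rw [← Finset.sum_image (s := Icc 1 ⌊y⌋₊) (g := fun a => a - 1)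
      (f := fun i => w (((i : ℕ) : ZMod e) + 1) * g k y i)]
    · congr 1
      ext i
      simp only [Finset.mem_image, Finset.mem_Icc, Finset.mem_range]
      constructor
      · rintro ⟨a, ⟨h1, h2⟩, rfl⟩; omega
      · intro hi; exact ⟨i + 1, ⟨by omega, by omega⟩, by omega⟩
    · intro a ha b hb hab
      simp only [Finset.coe_Icc, Set.mem_Icc] at ha hb hab
      omega
  rw [e1]
  have e2 : ∑ i ∈ range ⌊y⌋₊, w (((i : ℕ) : ZMod e) + 1) * g k y i =
      ∑ i ∈ range ⌊y⌋₊, (w (((i : ℕ) : ZMod e) + 1) - mean w) * g k y i +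
        mean w * ∑ i ∈ range ⌊y⌋₊, g k y i := by
    rw [Finset.mul_sum, ← Finset.sum_add_distrib]
    refine Finset.sum_congr rfl fun i _ => ?_
    ring
  rw [e2]
  have h1 := abel' (fun i => w (((i : ℕ) : ZMod e) + 1) - mean w) (g k y) (2 * e)
    (g_anti k y hy) (g_nonneg k y) (partial_bound w hw) ⌊y⌋₊
  have h2 := sum_g k y hy
  rw [g_zero k y hy] at h1
  have h4 : Real.log y ^ k ≤ (1 + Real.log y) ^ k := pow_le_pow_left₀ hlog (by linarith) _
  calc _ = |(∑ i ∈ range ⌊y⌋₊, (w (((i : ℕ) : ZMod e) + 1) - mean w) * g k y i) +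
        mean w * (∑ i ∈ range ⌊y⌋₊, g k y i - Real.log y ^ (k + 1) / (k + 1))| := by
        congr 1; ring
    _ ≤ _ := abs_add_le _ _
    _ ≤ 2 * e * Real.log y ^ k + 1 * (1 + Real.log y) ^ k := by
        refine add_le_add h1 ?_
        rw [abs_mul]
        exact mul_le_mul hm h2 (abs_nonneg _) zero_le_one
    _ ≤ (2 * e + 1) * (1 + Real.log y) ^ k := by
        have : (0 : ℝ) ≤ 2 * e := by positivity
        nlinarith [mul_le_mul_of_nonneg_left h4 this]

/-! ### the induction -/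

/-- `∑_{m ≤ y} d_k(m) f(m)/m` -/
noncomputable def T (k : ℕ) (f : ZMod e → ℝ) (y : ℝ) : ℝ :=
  ∑ m ∈ Icc 1 ⌊y⌋₊, dk k m * f (m : ZMod e) / m

/-- mean value of `f(c₁⋯c_k)` -/
noncomputable def M : ℕ → (ZMod e → ℝ) → ℝ
  | 0, f => f 1
  | k + 1, f => mean fun c => M k fun x => f (c * x)

lemma abs_M_le (k : ℕ) (f : ZMod e → ℝ) (hf : ∀ c, |f c| ≤ 1) : |M k f| ≤ 1 := by
  induction k generalizing f with
  | zero => exact hf 1
  | succ k ih =>
    exact abs_mean_le _ fun c => ih _ fun x => hf _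

lemma dk_zero (m : ℕ) : dk 0 m = if m = 1 then 1 else 0 := by
  unfold dk
  rw [pow_zero, ArithmeticFunction.one_apply]
  split_ifs <;> simp

lemma dk_succ (k m : ℕ) : dk (k + 1) m = ∑ p ∈ m.divisorsAntidiagonal, dk k p.2 := by
  unfold dk
  rw [pow_succ', ArithmeticFunction.mul_apply]
  push_cast
  refine Finset.sum_congr rfl fun p hp => ?_
  have : p.1 ≠ 0 := (Nat.ne_zero_of_mem_divisorsAntidiagonal hp).1
  rw [ArithmeticFunction.zeta_apply_ne this]
  simp

lemma hyper (N : ℕ) (F : ℕ → ℕ → ℝ) :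
    ∑ m ∈ Icc 1 N, ∑ p ∈ m.divisorsAntidiagonal, F p.1 p.2 =
      ∑ a ∈ Icc 1 N, ∑ b ∈ Icc 1 (N / a), F a b := by
  rw [Finset.sum_sigma', Finset.sum_sigma']
  refine Finset.sum_bij' (fun q _ => ⟨q.2.1, q.2.2⟩) (fun q _ => ⟨q.1 * q.2, (q.1, q.2)⟩)
    ?_ ?_ ?_ ?_ ?_
  · rintro ⟨m, a, b⟩ h
    simp only [Finset.mem_sigma, Finset.mem_Icc, Nat.mem_divisorsAntidiagonal] at h ⊢
    obtain ⟨⟨h1, h2⟩, h3, h4⟩ := h
    subst h3
    have ha : 1 ≤ a := Nat.one_le_iff_ne_zero.2 (by rintro rfl; simp at h4)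
    have hb : 1 ≤ b := Nat.one_le_iff_ne_zero.2 (by rintro rfl; simp at h4)
    refine ⟨⟨ha, ?_⟩, hb, ?_⟩
    · exact le_trans (Nat.le_mul_of_pos_right a hb) h2
    · rw [Nat.le_div_iff_mul_le ha, mul_comm]; exact h2
  · rintro ⟨a, b⟩ h
    simp only [Finset.mem_sigma, Finset.mem_Icc, Nat.mem_divisorsAntidiagonal] at h ⊢
    obtain ⟨⟨h1, h2⟩, h3, h4⟩ := h
    rw [Nat.le_div_iff_mul_le h1, mul_comm] at h4
    have : 0 < a * b := Nat.mul_pos h1 h3
    exact ⟨⟨this, h4⟩, trivial, this.ne'⟩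
  · rintro ⟨m, a, b⟩ h
    simp only [Finset.mem_sigma, Finset.mem_Icc, Nat.mem_divisorsAntidiagonal] at h
    obtain ⟨_, h3, _⟩ := h
    subst h3
    rfl
  · rintro ⟨a, b⟩ h
    rfl
  · rintro ⟨m, a, b⟩ h
    rfl

omit [NeZero e] in
lemma T_zero (f : ZMod e → ℝ) (y : ℝ) (hy : 1 ≤ y) : T 0 f y = f 1 := by
  unfold T
  rw [Finset.sum_eq_single 1]
  · simp [dk_zero]
  · intro b _ hb
    simp [dk_zero, hb]
  · intro h
    exfalso; apply h
    rw [Finset.mem_Icc]
    exact ⟨le_rfl, (Nat.one_le_floor_iff y).2 hy⟩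

omit [NeZero e] in
lemma T_succ (k : ℕ) (f : ZMod e → ℝ) (y : ℝ) :
    T (k + 1) f y = ∑ a ∈ Icc 1 ⌊y⌋₊, 1 / (a : ℝ) * T k (fun x => f ((a : ZMod e) * x)) (y / a) := by
  have h1 : T (k + 1) f y = ∑ m ∈ Icc 1 ⌊y⌋₊, ∑ p ∈ m.divisorsAntidiagonal,
      dk k p.2 * f ((p.1 : ZMod e) * (p.2 : ZMod e)) / ((p.1 : ℝ) * p.2) := by
    unfold T
    refine Finset.sum_congr rfl fun m _ => ?_
    rw [dk_succ, Finset.sum_mul, Finset.sum_div]
    refine Finset.sum_congr rfl fun p hp => ?_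
    have : p.1 * p.2 = m := (Nat.mem_divisorsAntidiagonal.1 hp).1
    rw [← this]
    push_cast
    ring
  rw [h1, hyper ⌊y⌋₊ (fun a b => dk k b * f ((a : ZMod e) * (b : ZMod e)) / ((a : ℝ) * b))]
  refine Finset.sum_congr rfl fun a _ => ?_
  unfold T
  rw [Finset.mul_sum, Nat.floor_div_natCast]
  refine Finset.sum_congr rfl fun b _ => ?_
  rw [one_div, div_eq_mul_inv, div_eq_mul_inv, mul_inv]
  ring

lemma sum_inv_le (y : ℝ) (hy : 1 ≤ y) : ∑ a ∈ Icc 1 ⌊y⌋₊, 1 / (a : ℝ) ≤ 1 + Real.log y := by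
  have h1 : ∑ a ∈ Icc 1 ⌊y⌋₊, 1 / (a : ℝ) = ((harmonic ⌊y⌋₊ : ℚ) : ℝ) := by
    rw [harmonic_eq_sum_Icc]
    push_cast
    simp
  rw [h1]
  exact harmonic_floor_le_one_add_log y hy

theorem main (k : ℕ) : ∃ C : ℝ, 0 ≤ C ∧ ∀ f : ZMod e → ℝ, (∀ c, |f c| ≤ 1) → ∀ y : ℝ, 1 ≤ y →
    |T (k + 1) f y - M (k + 1) f * (Real.log y ^ (k + 1) / (k + 1).factorial)| ≤
      C * (1 + Real.log y) ^ k := by
  induction k with
  | zero =>
    refine ⟨2 * e + 1, by positivity, fun f hf y hy => ?_⟩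
    have h1 := one_var 0 (fun c : ZMod e => M 0 fun x => f (c * x))
      (fun c => abs_M_le 0 _ fun x => hf _) y hy
    have h2 : T (0 + 1) f y = ∑ a ∈ Icc 1 ⌊y⌋₊, (M 0 fun x => f ((a : ZMod e) * x)) *
        (1 / (a : ℝ) * Real.log (y / a) ^ 0) := by
      rw [T_succ]
      refine Finset.sum_congr rfl fun a ha => ?_
      rw [Finset.mem_Icc] at ha
      have h2 : (0 : ℝ) < a := by exact_mod_cast ha.1
      have h3 : (a : ℝ) ≤ y := (Nat.le_floor_iff (by linarith)).1 ha.2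
      rw [T_zero _ _ (by rw [le_div_iff₀ h2]; linarith)]
      simp only [M]
      ring
    rw [h2]
    have h3 : M (0 + 1) f = mean fun c : ZMod e => M 0 fun x => f (c * x) := rfl
    rw [h3]
    simpa using h1
  | succ k ih =>
    obtain ⟨C, hC, hT⟩ := ih
    refine ⟨(2 * e + 1) + C, by positivity, fun f hf y hy => ?_⟩
    have hlog : 0 ≤ Real.log y := Real.log_nonneg hy
    have h1 := one_var (k + 1) (fun c : ZMod e => M (k + 1) fun x => f (c * x))
      (fun c => abs_M_le (k + 1) _ fun x => hf _) y hy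
    set E : ℕ → ℝ := fun a => T (k + 1) (fun x => f ((a : ZMod e) * x)) (y / a) -
      (M (k + 1) fun x => f ((a : ZMod e) * x)) *
        (Real.log (y / a) ^ (k + 1) / (k + 1).factorial) with hE
    have hE1 : ∀ a ∈ Icc 1 ⌊y⌋₊, |E a| ≤ C * (1 + Real.log y) ^ k := by
      intro a ha
      rw [Finset.mem_Icc] at ha
      have h2 : (0 : ℝ) < a := by exact_mod_cast ha.1
      have h3 : (a : ℝ) ≤ y := (Nat.le_floor_iff (by linarith)).1 ha.2
      have h4 : 1 ≤ y / a := by rw [le_div_iff₀ h2]; linarith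
      refine (hT _ (fun c => hf _) (y / a) h4).trans ?_
      have h5 : 0 ≤ Real.log (y / a) := Real.log_nonneg h4
      have h6 : Real.log (y / a) ≤ Real.log y := by
        apply Real.log_le_log (by positivity)
        apply div_le_self (by linarith)
        exact_mod_cast ha.1
      gcongr
    have e1 : T (k + 1 + 1) f y = (1 / ((k + 1).factorial : ℝ)) *
        ∑ a ∈ Icc 1 ⌊y⌋₊, (M (k + 1) fun x => f ((a : ZMod e) * x)) *
          (1 / (a : ℝ) * Real.log (y / a) ^ (k + 1)) + ∑ a ∈ Icc 1 ⌊y⌋₊, 1 / (a : ℝ) * E a := by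
      rw [T_succ, Finset.mul_sum, ← Finset.sum_add_distrib]
      refine Finset.sum_congr rfl fun a _ => ?_
      rw [hE]
      ring
    have h7 : |∑ a ∈ Icc 1 ⌊y⌋₊, 1 / (a : ℝ) * E a| ≤ C * (1 + Real.log y) ^ (k + 1) := by
      refine (Finset.abs_sum_le_sum_abs _ _).trans ?_
      calc ∑ a ∈ Icc 1 ⌊y⌋₊, |1 / (a : ℝ) * E a|
          ≤ ∑ a ∈ Icc 1 ⌊y⌋₊, 1 / (a : ℝ) * (C * (1 + Real.log y) ^ k) := by
            refine Finset.sum_le_sum fun a ha => ?_
            rw [abs_mul, abs_of_nonneg (show (0 : ℝ) ≤ 1 / (a : ℝ) by positivity)]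
            exact mul_le_mul_of_nonneg_left (hE1 a ha) (by positivity)
        _ = (∑ a ∈ Icc 1 ⌊y⌋₊, 1 / (a : ℝ)) * (C * (1 + Real.log y) ^ k) := by
            rw [Finset.sum_mul]
        _ ≤ (1 + Real.log y) * (C * (1 + Real.log y) ^ k) :=
            mul_le_mul_of_nonneg_right (sum_inv_le y hy) (by positivity)
        _ = C * (1 + Real.log y) ^ (k + 1) := by ring
    have h8 : M (k + 1 + 1) f = mean fun c : ZMod e => M (k + 1) fun x => f (c * x) := rfl
    have hfac : ((k + 1 + 1).factorial : ℝ) = ((k : ℝ) + 1 + 1) * ((k + 1).factorial : ℝ) := by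
      rw [Nat.factorial_succ]; push_cast; ring
    have hf1 : (1 : ℝ) ≤ ((k + 1).factorial : ℝ) := by
      exact_mod_cast Nat.one_le_iff_ne_zero.2 (Nat.factorial_ne_zero _)
    have hf0 : ((k + 1).factorial : ℝ) ≠ 0 := by positivity
    rw [e1, h8, hfac]
    set S := ∑ a ∈ Icc 1 ⌊y⌋₊, (M (k + 1) fun x => f ((a : ZMod e) * x)) *
          (1 / (a : ℝ) * Real.log (y / a) ^ (k + 1)) with hS
    set μ := mean fun c : ZMod e => M (k + 1) fun x => f (c * x) with hμ
    set R := ∑ a ∈ Icc 1 ⌊y⌋₊, 1 / (a : ℝ) * E a with hR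
    have e3 : (1 / ((k + 1).factorial : ℝ)) * S + R -
        μ * (Real.log y ^ (k + 1 + 1) / (((k : ℝ) + 1 + 1) * ((k + 1).factorial : ℝ))) =
        (1 / ((k + 1).factorial : ℝ)) *
          (S - μ * (Real.log y ^ (k + 1 + 1) / (((k + 1 : ℕ) : ℝ) + 1))) + R := by
      push_cast
      field_simp
      ring
    rw [e3]
    refine (abs_add_le _ _).trans ?_
    rw [abs_mul, abs_of_nonneg (show (0 : ℝ) ≤ 1 / ((k + 1).factorial : ℝ) by positivity)]
    have h9 : 1 / ((k + 1).factorial : ℝ) ≤ 1 := by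
      rw [div_le_one (by positivity)]; exact hf1
    have h10 : 1 / ((k + 1).factorial : ℝ) *
        |S - μ * (Real.log y ^ (k + 1 + 1) / (((k + 1 : ℕ) : ℝ) + 1))| ≤
        1 * ((2 * e + 1) * (1 + Real.log y) ^ (k + 1)) :=
      mul_le_mul h9 h1 (abs_nonneg _) zero_le_one
    calc _ ≤ 1 * ((2 * e + 1) * (1 + Real.log y) ^ (k + 1)) + C * (1 + Real.log y) ^ (k + 1) :=
          add_le_add h10 h7
      _ = _ := by ring

/-! ### the mean value as a counting probability -/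

lemma M_eq (k : ℕ) (f : ZMod e → ℝ) :
    M k f = (∑ v : Fin k → ZMod e, f (∏ i, v i)) / (e : ℝ) ^ k := by
  induction k generalizing f with
  | zero => simp [M]
  | succ k ih =>
    have h1 : M (k + 1) f = mean fun c : ZMod e => M k fun x => f (c * x) := rfl
    rw [h1]
    unfold mean
    simp only [ih]
    rw [← Finset.sum_div, div_div, ← pow_succ]
    congr 1
    rw [← (Fin.consEquiv (fun _ : Fin (k + 1) => ZMod e)).sum_comp, Fintype.sum_prod_type]
    refine Finset.sum_congr rfl fun c _ => ?_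
    refine Finset.sum_congr rfl fun v _ => ?_
    simp [Fin.consEquiv, Fin.prod_univ_succ]

lemma Pr_eq (k : ℕ) : Pr k e = M k (fun c : ZMod e => if c = 0 then 1 else 0) := by
  classical
  rw [M_eq]
  unfold Pr
  congr 1
  rw [Finset.sum_boole]
  congr 1
  symm
  refine Finset.card_nbij' (fun v i => (v i).val) (fun v i => ((v i : ℕ) : ZMod e)) ?_ ?_ ?_ ?_
  · intro v hv
    simp only [Finset.coe_filter, Finset.mem_univ, true_and, Set.mem_ofPred_eq] at hv
    simp only [Finset.coe_filter, Fintype.mem_piFinset, Finset.mem_range, Set.mem_ofPred_eq]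
    refine ⟨fun i => ZMod.val_lt _, ?_⟩
    rw [← ZMod.natCast_eq_zero_iff]
    push_cast
    simpa using hv
  · intro v hv
    simp only [Finset.coe_filter, Fintype.mem_piFinset, Finset.mem_range, Set.mem_ofPred_eq] at hv
    simp only [Finset.coe_filter, Finset.mem_univ, true_and, Set.mem_ofPred_eq]
    have := (ZMod.natCast_eq_zero_iff _ _).2 hv.2
    push_cast at this
    exact this
  · intro v _
    funext i
    simp
  · intro v hv
    simp only [Finset.coe_filter, Fintype.mem_piFinset, Finset.mem_range, Set.mem_ofPred_eq] at hv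
    funext i
    change (((v i : ℕ) : ZMod e)).val = v i
    rw [ZMod.val_natCast, Nat.mod_eq_of_lt (hv.1 i)]

omit [NeZero e] in
lemma LL_eq (k : ℕ) (y : ℝ) [NeZero e] :
    LL k y e = T k (fun c : ZMod e => if c = 0 then 1 else 0) y := by
  unfold LL T
  rw [Finset.sum_filter]
  refine Finset.sum_congr rfl fun m _ => ?_
  simp only
  by_cases h : e ∣ m
  · rw [if_pos h, if_pos ((ZMod.natCast_eq_zero_iff _ _).2 h)]; ring
  · rw [if_neg h, if_neg (fun h' => h ((ZMod.natCast_eq_zero_iff _ _).1 h'))]; ring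

omit [NeZero e] in
/-- quantitative form: `|LL k y e - Pr k e (log y)^k / k!| ≤ C (1 + log y)^(k-1)`, `k ≥ 1` -/
theorem LL_quant (k : ℕ) (he : 1 ≤ e) : ∃ C : ℝ, 0 ≤ C ∧ ∀ y : ℝ, 1 ≤ y →
    |LL (k + 1) y e - Pr (k + 1) e * (Real.log y ^ (k + 1) / (k + 1).factorial)| ≤
      C * (1 + Real.log y) ^ k := by
  have : NeZero e := ⟨by omega⟩
  obtain ⟨C, hC, h⟩ := main (e := e) k
  refine ⟨C, hC, fun y hy => ?_⟩
  rw [LL_eq, Pr_eq]
  exact h _ (fun c => by split_ifs <;> simp) y hy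

/-- B3 -/
theorem LL_asymp (k e : ℕ) (hk : 1 ≤ k) (he : 1 ≤ e) :
    Tendsto (fun y : ℝ => LL k y e / Real.log y ^ k) atTop (𝓝 (Pr k e / k.factorial)) := by
  obtain ⟨k, rfl⟩ : ∃ j, k = j + 1 := ⟨k - 1, by omega⟩
  obtain ⟨C, hC, h⟩ := LL_quant k he
  rw [tendsto_iff_norm_sub_tendsto_zero]
  have hb : Tendsto (fun y : ℝ => C * 2 ^ k * (Real.log y)⁻¹) atTop (𝓝 0) := by
    have := (tendsto_inv_atTop_zero.comp Real.tendsto_log_atTop).const_mul (C * 2 ^ k)
    simpa using this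
  refine squeeze_zero' (Eventually.of_forall fun _ => norm_nonneg _) ?_ hb
  filter_upwards [eventually_ge_atTop (Real.exp 1)] with y hy
  have h1 : 1 ≤ Real.log y := by
    rw [Real.le_log_iff_exp_le (lt_of_lt_of_le (Real.exp_pos _) hy)]; exact hy
  have hy1 : 1 ≤ y := le_trans (by have := Real.add_one_le_exp (1 : ℝ); linarith) hy
  have h2 := h y hy1
  have hl0 : 0 < Real.log y := by linarith
  have h3 : LL (k + 1) y e / Real.log y ^ (k + 1) - Pr (k + 1) e / ((k + 1).factorial : ℝ) =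
      (LL (k + 1) y e - Pr (k + 1) e * (Real.log y ^ (k + 1) / (k + 1).factorial)) /
        Real.log y ^ (k + 1) := by
    field_simp
  rw [h3, Real.norm_eq_abs, abs_div, abs_of_pos (pow_pos hl0 (k + 1)),
    div_le_iff₀ (pow_pos hl0 (k + 1))]
  refine h2.trans ?_
  have h4 : (1 + Real.log y) ^ k ≤ (2 * Real.log y) ^ k :=
    pow_le_pow_left₀ (by linarith) (by linarith) _
  calc C * (1 + Real.log y) ^ k ≤ C * (2 * Real.log y) ^ k := mul_le_mul_of_nonneg_left h4 hC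
    _ = C * 2 ^ k * (Real.log y)⁻¹ * Real.log y ^ (k + 1) := by
      rw [mul_pow, pow_succ]
      field_simp

end Pool.Agent.H459R2.ADB2
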