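import Mathlib
import Pool.Agent.H383.PZ.Defs3
import Pool.Agent.H383.OM.C2a

/-!
# Piltz divisor problem, `k = 3`: the sum over `m` is the integral (task A2)
-/

open MeasureTheory Filter Topology
open Pool.Agent.H387R2.Vor
open Pool.Agent.H383.PZ
open Pool.Agent.H383.OM (norm_ex ex_cont cf_le_one cf_le hasDerivAt_ex hasDerivAt_cf)

namespace Pool.Agent.H459R2.PZA2

/-- the complex weight as a function of `y = z ^ 3` -/
noncomputable def Gy (δ : ℝ) (n : ℕ) (v : ℝ) (y : ℝ) : ℂ :=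
  ex (-(3 * y ^ (1/3 : ℝ) * v)) * cf (3 * y ^ (1/3 : ℝ) * δ) ^ n

noncomputable def Gd (δ : ℝ) (n : ℕ) (v : ℝ) (y : ℝ) : ℂ :=
  ex (-(3 * y ^ (1/3 : ℝ) * v)) * cf (3 * y ^ (1/3 : ℝ) * δ) ^ (n - 1) *
    (-(2 * Real.pi * Complex.I * (v * y ^ (1/3 : ℝ) / y : ℝ)) * cf (3 * y ^ (1/3 : ℝ) * δ) +
      n * (ex (3 * y ^ (1/3 : ℝ) * δ) - cf (3 * y ^ (1/3 : ℝ) * δ)) / (3 * y : ℝ))

lemma Gy_deriv {δ : ℝ} (hδ : 0 < δ) {n : ℕ} (hn : 1 ≤ n) (v : ℝ) {y : ℝ} (hy : 0 < y) :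
    HasDerivAt (Gy δ n v) (Gd δ n v y) y := by
  have hs : 0 < y ^ (1/3 : ℝ) := Real.rpow_pos_of_pos hy _
  have hsq : HasDerivAt (fun y : ℝ => y ^ (1/3 : ℝ)) ((1/3) * (y ^ (1/3 : ℝ) / y)) y := by
    have h := Real.hasDerivAt_rpow_const (x := y) (p := 1/3) (Or.inl hy.ne')
    rw [Real.rpow_sub_one hy.ne'] at h
    exact h
  set z := y ^ (1/3 : ℝ) with hz
  have h1 : HasDerivAt (fun y : ℝ => -(3 * y ^ (1/3 : ℝ) * v)) (-(3 * ((1/3) * (z / y)) * v)) y :=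
    ((hsq.const_mul 3).mul_const v).neg
  have h2 : HasDerivAt (fun y : ℝ => 3 * y ^ (1/3 : ℝ) * δ) (3 * ((1/3) * (z / y)) * δ) y :=
    (hsq.const_mul 3).mul_const δ
  have h3 : HasDerivAt (fun y : ℝ => ex (-(3 * y ^ (1/3 : ℝ) * v)))
      ((-(3 * ((1/3) * (z / y)) * v)) • (2 * Real.pi * Complex.I * ex (-(3 * z * v)))) y :=
    HasDerivAt.scomp y (hasDerivAt_ex _) h1
  have hne : 3 * z * δ ≠ 0 := by positivity
  have h4 : HasDerivAt (fun y : ℝ => cf (3 * y ^ (1/3 : ℝ) * δ))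
      ((3 * ((1/3) * (z / y)) * δ) • ((ex (3 * z * δ) - cf (3 * z * δ)) / ((3 * z * δ : ℝ) : ℂ))) y :=
    HasDerivAt.scomp y (hasDerivAt_cf hne) h2
  have h5 := h4.pow n
  have h6 := h3.mul h5
  unfold Gy
  refine h6.congr_deriv ?_
  unfold Gd
  rw [← hz]
  obtain ⟨k, rfl⟩ : ∃ k, n = k + 1 := ⟨n - 1, by omega⟩
  have hs' : ((z : ℝ) : ℂ) ≠ 0 := by exact_mod_cast hs.ne'
  have hy' : (y:ℂ) ≠ 0 := by exact_mod_cast hy.ne'
  have hδ' : (δ:ℂ) ≠ 0 := by exact_mod_cast hδ.ne'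
  simp only [Pi.pow_apply, Nat.add_sub_cancel, pow_succ, Complex.real_smul, ← hz]
  push_cast
  field_simp

lemma Gy_le (δ : ℝ) (n : ℕ) (v y : ℝ) :
    ‖Gy δ n v y‖ ≤ ‖cf (3 * y ^ (1/3 : ℝ) * δ)‖ ^ n := by
  unfold Gy
  rw [norm_mul, norm_ex, norm_pow, one_mul]

lemma cf3_le {δ : ℝ} (hδ : 0 < δ) {z : ℝ} (hz : 0 < z) :
    ‖cf (3 * z * δ)‖ ≤ 1 / (9 * (z * δ)) := by
  have h1 := cf_le (y := 3 * z * δ) (by positivity)
  refine h1.trans ?_
  apply one_div_le_one_div_of_le (by positivity)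
  have hpi := Real.pi_gt_three
  have : 0 < z * δ := by positivity
  nlinarith

lemma Gd_le {δ : ℝ} (hδ : 0 < δ) {n : ℕ} (hn : 2 ≤ n) {v : ℝ} (hv : n * δ ≤ v) {y : ℝ} (hy : 0 < y) :
    ‖Gd δ n v y‖ ≤ (1/4) * (v / δ ^ 2) * (y * y ^ (1/3 : ℝ))⁻¹ := by
  have hs : 0 < y ^ (1/3 : ℝ) := Real.rpow_pos_of_pos hy _
  have hpi := Real.pi_pos
  have hpi' := Real.pi_lt_d2
  have hn' : (2:ℝ) ≤ n := by exact_mod_cast hn
  have hv0 : 0 ≤ v := by nlinarith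
  unfold Gd
  set z := y ^ (1/3 : ℝ) with hz
  have h1 := cf3_le hδ hs
  have h2 := cf_le_one (3 * z * δ)
  set w := ‖cf (3 * z * δ)‖ with hw
  have hw0 : 0 ≤ w := norm_nonneg _
  rw [norm_mul, norm_mul, norm_ex, norm_pow, ← hw, one_mul]
  have h3 : w ^ (n-1) ≤ w := by
    calc w ^ (n-1) ≤ w ^ 1 := pow_le_pow_of_le_one hw0 h2 (by omega)
      _ = w := pow_one w
  have h4 : ‖-(2 * Real.pi * Complex.I * (v * z / y : ℝ)) * cf (3 * z * δ) +
      n * (ex (3 * z * δ) - cf (3 * z * δ)) / (3 * y : ℝ)‖ ≤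
      2 * Real.pi * (v * z / y) * w + n * 2 / (3 * y) := by
    refine (norm_add_le _ _).trans ?_
    have e1 : ‖-(2 * Real.pi * Complex.I * (v * z / y : ℝ)) * cf (3 * z * δ)‖ =
        2 * Real.pi * (v * z / y) * w := by
      rw [norm_mul, norm_neg, norm_mul, norm_mul, norm_mul, Complex.norm_I, Complex.norm_real, Complex.norm_real,
        Real.norm_eq_abs, Real.norm_eq_abs, abs_of_pos hpi, abs_of_nonneg (by positivity)]
      simp only [Complex.norm_ofNat, mul_one]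
      rfl
    have e2 : ‖(n:ℂ) * (ex (3 * z * δ) - cf (3 * z * δ)) / (3 * y : ℝ)‖ ≤ n * 2 / (3 * y) := by
      rw [norm_div, norm_mul, Complex.norm_natCast, Complex.norm_real, Real.norm_eq_abs, abs_of_pos (by positivity)]
      have e3 : ‖ex (3 * z * δ) - cf (3 * z * δ)‖ ≤ 2 := by
        calc _ ≤ ‖ex (3 * z * δ)‖ + ‖cf (3 * z * δ)‖ := norm_sub_le _ _
          _ ≤ 1 + 1 := by rw [norm_ex]; linarith
          _ = 2 := by norm_num
      gcongr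
    linarith
  set κ := 1 / (9 * (z * δ)) with hκ
  have hκ0 : 0 < κ := by positivity
  calc w ^ (n-1) * _ ≤ w * (2 * Real.pi * (v * z / y) * w + n * 2 / (3 * y)) := by
        gcongr
    _ ≤ κ * (2 * Real.pi * (v * z / y) * κ + n * 2 / (3 * y)) := by gcongr
    _ = ((2 * Real.pi / 81) * (v / δ^2) + (2/27) * (n * δ / δ^2)) * (y * z)⁻¹ := by
        rw [hκ]
        field_simp
        ring
    _ ≤ ((2 * Real.pi / 81) * (v / δ^2) + (2/27) * (v / δ^2)) * (y * z)⁻¹ := by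
        gcongr
    _ ≤ _ := by
        have h5 : 0 ≤ (v / δ^2) * (y * z)⁻¹ := by positivity
        nlinarith

/-- the real weight -/
noncomputable def gy (δ : ℝ) (n : ℕ) (v : ℝ) (y : ℝ) : ℝ := y ^ (-(2/3) : ℝ) * Cq δ n (y ^ (1/3 : ℝ)) v

noncomputable def gd (δ : ℝ) (n : ℕ) (v : ℝ) (y : ℝ) : ℝ :=
  (-(2/3) * y ^ (-(2/3) - 1 : ℝ)) * (Gy δ n v y).re + y ^ (-(2/3) : ℝ) * (Gd δ n v y).re

lemma Cq_Gy (δ : ℝ) (n : ℕ) (v y : ℝ) : Cq δ n (y ^ (1/3 : ℝ)) v = (Gy δ n v y).re := rfl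

lemma gy_deriv {δ : ℝ} (hδ : 0 < δ) {n : ℕ} (hn : 1 ≤ n) (v : ℝ) {y : ℝ} (hy : 0 < y) :
    HasDerivAt (gy δ n v) (gd δ n v y) y := by
  have h1 : HasDerivAt (fun y : ℝ => (Gy δ n v y).re) ((Gd δ n v y).re) y := by
    have := Gy_deriv hδ hn v hy
    exact (Complex.reCLM.hasFDerivAt.comp_hasDerivAt y this)
  have h2 : HasDerivAt (fun y : ℝ => y ^ (-(2/3) : ℝ)) (-(2/3) * y ^ (-(2/3) - 1 : ℝ)) y :=
    Real.hasDerivAt_rpow_const (Or.inl hy.ne')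
  exact h2.mul h1

lemma pow_aux {y : ℝ} (hy : 0 < y) :
    y ^ (-(2/3) : ℝ) * (y * y ^ (1/3 : ℝ))⁻¹ = y ^ (-2 : ℝ) := by
  have h : (y * y ^ (1/3 : ℝ))⁻¹ = y ^ (-(4/3) : ℝ) := by
    rw [← Real.rpow_one_add' hy.le (by norm_num), ← Real.rpow_neg hy.le]; norm_num
  rw [h, ← Real.rpow_add hy]; norm_num

lemma pow_aux2 {y : ℝ} (hy : 0 < y) :
    y ^ (-(2/3) - 1 : ℝ) * (y ^ (1/3 : ℝ))⁻¹ = y ^ (-2 : ℝ) := by
  rw [← Real.rpow_neg hy.le, ← Real.rpow_add hy]; norm_num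

lemma abs_G_le {δ : ℝ} (hδ : 0 < δ) {n : ℕ} (hn : 1 ≤ n) (v : ℝ) {y : ℝ} (hy : 0 < y) :
    |(Gy δ n v y).re| ≤ (1/9) * (1/δ) * (y ^ (1/3 : ℝ))⁻¹ := by
  have hs : 0 < y ^ (1/3 : ℝ) := Real.rpow_pos_of_pos hy _
  refine (Complex.abs_re_le_norm _).trans ((Gy_le δ n v y).trans ?_)
  calc ‖cf (3 * y ^ (1/3 : ℝ) * δ)‖ ^ n ≤ ‖cf (3 * y ^ (1/3 : ℝ) * δ)‖ ^ 1 :=
        pow_le_pow_of_le_one (norm_nonneg _) (cf_le_one _) hn
    _ = ‖cf (3 * y ^ (1/3 : ℝ) * δ)‖ := pow_one _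
    _ ≤ 1 / (9 * (y ^ (1/3 : ℝ) * δ)) := cf3_le hδ hs
    _ = _ := by field_simp

lemma gd_le {δ : ℝ} (hδ : 0 < δ) {n : ℕ} (hn : 2 ≤ n) {v : ℝ} (hv : n * δ ≤ v) {y : ℝ} (hy : 0 < y) :
    |gd δ n v y| ≤ (v / δ ^ 2) * y ^ (-2 : ℝ) := by
  have hn' : (2:ℝ) ≤ n := by exact_mod_cast hn
  have hv0 : 0 ≤ v := by nlinarith
  have hs : 0 < y ^ (1/3 : ℝ) := Real.rpow_pos_of_pos hy _
  have hdv : 1 / δ ≤ v / δ ^ 2 := by
    rw [div_le_div_iff₀ hδ (by positivity)]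
    nlinarith
  unfold gd
  have h1 := abs_G_le hδ (by omega : 1 ≤ n) v hy
  have h2 : |(Gd δ n v y).re| ≤ _ := (Complex.abs_re_le_norm _).trans (Gd_le hδ hn hv hy)
  have hp : 0 < y ^ (-(2/3) - 1 : ℝ) := by positivity
  have hp2 : 0 < y ^ (-(2/3) : ℝ) := by positivity
  have hp3 : 0 < y ^ (-2 : ℝ) := by positivity
  calc _ ≤ |(-(2/3) * y ^ (-(2/3) - 1 : ℝ)) * (Gy δ n v y).re| + |y ^ (-(2/3) : ℝ) * (Gd δ n v y).re| := abs_add_le _ _
    _ = (2/3) * y ^ (-(2/3) - 1 : ℝ) * |(Gy δ n v y).re| + y ^ (-(2/3) : ℝ) * |(Gd δ n v y).re| := by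
        rw [abs_mul, abs_mul, abs_mul, abs_of_pos hp, abs_of_pos hp2, abs_neg, abs_of_pos (by norm_num : (0:ℝ) < 2/3)]
    _ ≤ (2/3) * y ^ (-(2/3) - 1 : ℝ) * ((1/9) * (1/δ) * (y ^ (1/3 : ℝ))⁻¹) +
        y ^ (-(2/3) : ℝ) * ((1/4) * (v / δ ^ 2) * (y * y ^ (1/3 : ℝ))⁻¹) := by gcongr
    _ = (2/27) * (1/δ) * (y ^ (-(2/3) - 1 : ℝ) * (y ^ (1/3 : ℝ))⁻¹) +
        (1/4) * (v / δ^2) * (y ^ (-(2/3) : ℝ) * (y * y ^ (1/3 : ℝ))⁻¹) := by ring
    _ = (2/27) * (1/δ) * y ^ (-2 : ℝ) + (1/4) * (v / δ^2) * y ^ (-2 : ℝ) := by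
        rw [pow_aux hy, pow_aux2 hy]
    _ ≤ (2/27) * (v / δ^2) * y ^ (-2 : ℝ) + (1/4) * (v / δ^2) * y ^ (-2 : ℝ) := by gcongr
    _ ≤ _ := by
      have : 0 ≤ (v / δ^2) * y ^ (-2 : ℝ) := by positivity
      nlinarith

lemma abs_gy_le {δ : ℝ} (hδ : 0 < δ) {n : ℕ} (hn : 1 ≤ n) (v : ℝ) {y : ℝ} (hy : 0 < y) :
    |gy δ n v y| ≤ (1/δ) * y ^ (-1 : ℝ) := by
  have h1 := abs_G_le hδ hn v hy
  unfold gy
  rw [Cq_Gy, abs_mul, abs_of_pos (by positivity : 0 < y ^ (-(2/3) : ℝ))]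
  have e : y ^ (-(2/3) : ℝ) * (y ^ (1/3 : ℝ))⁻¹ = y ^ (-1 : ℝ) := by
    rw [← Real.rpow_neg hy.le, ← Real.rpow_add hy]; norm_num
  calc y ^ (-(2/3) : ℝ) * |(Gy δ n v y).re| ≤ y ^ (-(2/3) : ℝ) * ((1/9) * (1/δ) * (y ^ (1/3 : ℝ))⁻¹) := by gcongr
    _ = (1/9) * ((1/δ) * (y ^ (-(2/3) : ℝ) * (y ^ (1/3 : ℝ))⁻¹)) := by ring
    _ = (1/9) * ((1/δ) * y ^ (-1 : ℝ)) := by rw [e]
    _ ≤ _ := by
      have : 0 ≤ (1/δ) * y ^ (-1 : ℝ) := by positivity
      nlinarith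

lemma abs_gy_le_one (δ : ℝ) (n : ℕ) (v : ℝ) : |gy δ n v 1| ≤ 1 := by
  unfold gy
  rw [Cq_Gy, Real.one_rpow, one_mul]
  exact (Complex.abs_re_le_norm _).trans ((Gy_le δ n v 1).trans (pow_le_one₀ (norm_nonneg _) (cf_le_one _)))

/-! ### Partial summation -/

lemma dk_nonneg (k n : ℕ) : 0 ≤ dk k n := by unfold dk; positivity

lemma dk_zero (k : ℕ) : dk k 0 = 0 := by unfold dk; simp

lemma Dk_meas (k : ℕ) : Measurable (Dk k) := by
  have h : Dk k = (fun N : ℕ => ∑ n ∈ Finset.Icc 1 N, dk k n) ∘ (fun x : ℝ => ⌊x⌋₊) := rfl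
  rw [h]
  exact (measurable_from_top).comp Nat.measurable_floor

/-- the main term -/
noncomputable def mt (P : Polynomial ℝ) (y : ℝ) : ℝ := y * P.eval (Real.log y)

noncomputable def WW (P : Polynomial ℝ) (y : ℝ) : ℝ :=
  P.eval (Real.log y) + P.derivative.eval (Real.log y)

lemma mt_deriv (P : Polynomial ℝ) {y : ℝ} (hy : 0 < y) : HasDerivAt (mt P) (WW P y) y := by
  have h1 : HasDerivAt (fun y : ℝ => P.eval (Real.log y)) (P.derivative.eval (Real.log y) * y⁻¹) y :=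
    (P.hasDerivAt (Real.log y)).comp y (Real.hasDerivAt_log hy.ne')
  have h2 := (hasDerivAt_id y).mul h1
  unfold mt WW
  refine h2.congr_deriv ?_
  simp only [id]
  field_simp

lemma WW_cont (P : Polynomial ℝ) : ContinuousOn (WW P) (Set.Ioi 0) := by
  intro y hy
  have hy' : (0:ℝ) < y := hy
  apply ContinuousAt.continuousWithinAt
  unfold WW
  have h := Real.continuousAt_log hy'.ne'
  exact ((P.continuous.continuousAt).comp h).add ((P.derivative.continuous.continuousAt).comp h)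

lemma dgy_int {δ : ℝ} (hδ : 0 < δ) {n : ℕ} (hn : 2 ≤ n) {v : ℝ} (hv : n * δ ≤ v) {a b : ℝ} (ha : 1 ≤ a) :
    IntegrableOn (deriv (gy δ n v)) (Set.Icc a b) := by
  have hv0 : 0 ≤ v := by
    have : (2:ℝ) ≤ n := by exact_mod_cast hn
    nlinarith
  apply Measure.integrableOn_of_bounded (M := v / δ ^ 2) (measure_Icc_lt_top).ne
    (measurable_deriv _).aestronglyMeasurable
  rw [ae_restrict_iff' measurableSet_Icc]
  refine Eventually.of_forall (fun y hy => ?_)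
  have hy1 : 1 ≤ y := ha.trans hy.1
  rw [(gy_deriv hδ (by omega) v (by linarith)).deriv, Real.norm_eq_abs]
  refine (gd_le hδ hn hv (by linarith)).trans ?_
  have h1 : y ^ (-2 : ℝ) ≤ 1 := Real.rpow_le_one_of_one_le_of_nonpos hy1 (by norm_num)
  have h2 : 0 ≤ v / δ ^ 2 := by positivity
  nlinarith

/-- the partial summation, finite form -/
lemma part_sum (P : Polynomial ℝ) {C₀ : ℝ}
    (hD : ∀ y : ℝ, 1 ≤ y → |Dk 3 y - y * P.eval (Real.log y)| ≤ C₀ * y ^ (3/4 : ℝ))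
    {δ : ℝ} (hδ : 0 < δ) {n : ℕ} (hn : 2 ≤ n) {v : ℝ} (hv : n * δ ≤ v) {M : ℕ} (hM : 1 ≤ M) :
    |∑ m ∈ Finset.Icc 0 M, gy δ n v m * dk 3 m -
      ∫ y in (1:ℝ)..M, gy δ n v y * WW P y| ≤
      |P.eval 0| + 5 * C₀ * (v / δ ^ 2) := by
  have hMR : (1:ℝ) ≤ M := by exact_mod_cast hM
  have hM0 : (0:ℝ) < M := by linarith
  have hn' : (2:ℝ) ≤ n := by exact_mod_cast hn
  have hv0 : 0 ≤ v := by nlinarith
  have hC0 : 0 ≤ C₀ := by
    have := (abs_nonneg _).trans (hD 1 le_rfl)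
    rwa [Real.one_rpow, mul_one] at this
  have hdv : 1 / δ ≤ v / δ ^ 2 := by
    rw [div_le_div_iff₀ hδ (by positivity)]
    nlinarith
  set f := gy δ n v with hf
  set K : ℝ := v / δ ^ 2 with hK
  have hK0 : 0 ≤ K := by positivity
  have habel := sum_mul_eq_sub_integral_mul₀' (f := f) (c := fun m => dk 3 m) (dk_zero 3) M
    (fun t ht => (gy_deriv hδ (by omega) v (by linarith [ht.1])).differentiableAt) (dgy_int hδ hn hv le_rfl)
  have hDD : ∀ t : ℝ, ∑ k ∈ Finset.Icc 0 ⌊t⌋₊, dk 3 k = Dk 3 t := by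
    intro t
    unfold Dk
    rw [Finset.Icc_eq_cons_Ioc (Nat.zero_le _), Finset.sum_cons, dk_zero, zero_add]
    congr 1
  have hDM : ∑ k ∈ Finset.Icc 0 M, dk 3 k = Dk 3 M := by
    have := hDD M
    rwa [Nat.floor_natCast] at this
  rw [habel, hDM, ← intervalIntegral.integral_of_le hMR]
  simp_rw [hDD]
  -- decompose D
  set Del : ℝ → ℝ := fun y => Dk 3 y - mt P y with hDel
  have hDele : ∀ y, Dk 3 y = mt P y + Del y := fun y => by rw [hDel]; ring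
  have hDelB : ∀ y, 1 ≤ y → |Del y| ≤ C₀ * y ^ (3/4 : ℝ) := fun y hy => hD y hy
  have hdint : IntervalIntegrable (deriv f) volume 1 M := by
    rw [intervalIntegrable_iff, Set.uIoc_of_le hMR]
    exact (dgy_int hδ hn hv le_rfl).mono_set Set.Ioc_subset_Icc_self
  have hmtc : ContinuousOn (mt P) (Set.uIcc 1 M) := by
    intro y hy
    rw [Set.uIcc_of_le hMR] at hy
    exact (mt_deriv P (by linarith [hy.1])).continuousAt.continuousWithinAt
  have hi1 : IntervalIntegrable (fun t => deriv f t * mt P t) volume 1 M := hdint.mul_continuousOn hmtc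
  have hDelb : ∀ t ∈ Set.Ioc (1:ℝ) M, |deriv f t * Del t| ≤ (C₀ * K) * t ^ (-(5/4):ℝ) := by
    intro t ht
    have ht0 : 0 < t := by linarith [ht.1]
    rw [(gy_deriv hδ (by omega) v ht0).deriv, abs_mul]
    have e1 := gd_le hδ hn hv ht0
    have e2 := hDelB t ht.1.le
    have e3 : t ^ (-2:ℝ) * t ^ (3/4 : ℝ) = t ^ (-(5/4):ℝ) := by
      rw [← Real.rpow_add ht0]; norm_num
    calc |gd δ n v t| * |Del t| ≤ (K * t ^ (-2:ℝ)) * (C₀ * t ^ (3/4 : ℝ)) := by gcongr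
      _ = (C₀ * K) * (t ^ (-2:ℝ) * t ^ (3/4 : ℝ)) := by ring
      _ = _ := by rw [e3]
  have hmtm : Measurable (mt P) := by
    unfold mt
    exact measurable_id.mul (P.continuous.measurable.comp Real.measurable_log)
  have hDelm : Measurable Del := (Dk_meas 3).sub hmtm
  have hpowi : IntervalIntegrable (fun t : ℝ => (C₀ * K) * t ^ (-(5/4):ℝ)) volume 1 M := by
    apply IntervalIntegrable.const_mul
    apply intervalIntegral.intervalIntegrable_rpow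
    right
    rw [Set.uIcc_of_le hMR]
    intro h; linarith [h.1]
  have hi2 : IntervalIntegrable (fun t => deriv f t * Del t) volume 1 M := by
    rw [intervalIntegrable_iff, Set.uIoc_of_le hMR] at hpowi ⊢
    apply Integrable.mono' hpowi ((measurable_deriv f).mul hDelm).aestronglyMeasurable
    rw [ae_restrict_iff' measurableSet_Ioc]
    exact Eventually.of_forall (fun t ht => by rw [Real.norm_eq_abs]; exact hDelb t ht)
  have hsplit : ∫ t in (1:ℝ)..M, deriv f t * Dk 3 t = (∫ t in (1:ℝ)..M, deriv f t * mt P t) + ∫ t in (1:ℝ)..M, deriv f t * Del t := by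
    rw [← intervalIntegral.integral_add hi1 hi2]
    apply intervalIntegral.integral_congr
    intro t _
    simp only
    rw [hDele]; ring
  have hlogi : IntervalIntegrable (WW P) volume 1 M := by
    apply ContinuousOn.intervalIntegrable
    apply (WW_cont P).mono
    intro y hy
    rw [Set.uIcc_of_le hMR] at hy
    show 0 < y
    linarith [hy.1]
  have hparts : ∫ t in (1:ℝ)..M, deriv f t * mt P t = f M * mt P M - f 1 * mt P 1 - ∫ t in (1:ℝ)..M, f t * WW P t := by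
    have := intervalIntegral.integral_mul_deriv_eq_deriv_mul (a := 1) (b := (M:ℝ)) (u := f) (u' := deriv f) (v := mt P)
      (v' := WW P)
      (fun y hy => by
        rw [Set.uIcc_of_le hMR] at hy
        have h := gy_deriv hδ (by omega : 1 ≤ n) v (y := y) (by linarith [hy.1])
        have h' : deriv f y = gd δ n v y := h.deriv
        rw [h']
        exact h)
      (fun y hy => by
        rw [Set.uIcc_of_le hMR] at hy
        exact mt_deriv P (by linarith [hy.1]))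
      hdint hlogi
    linarith
  rw [hsplit, hparts]
  have hb1 : |∫ t in (1:ℝ)..M, deriv f t * Del t| ≤ 4 * (C₀ * K) := by
    have h1 : ‖∫ t in (1:ℝ)..M, deriv f t * Del t‖ ≤ ∫ t in (1:ℝ)..M, (C₀ * K) * t ^ (-(5/4):ℝ) := by
      apply intervalIntegral.norm_integral_le_of_norm_le hMR _ hpowi
      exact Eventually.of_forall (fun t ht => by rw [Real.norm_eq_abs]; exact hDelb t ht)
    rw [Real.norm_eq_abs] at h1
    refine h1.trans ?_
    rw [intervalIntegral.integral_const_mul, integral_rpow (by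
      right; refine ⟨by norm_num, ?_⟩; rw [Set.uIcc_of_le hMR]; intro h; linarith [h.1])]
    have e1 : (0:ℝ) ≤ (M:ℝ) ^ (-(5/4) + 1 : ℝ) := by positivity
    rw [Real.one_rpow]
    have e2 : ((M:ℝ) ^ (-(5/4) + 1 : ℝ) - 1) / (-(5/4) + 1) = 4 * (1 - (M:ℝ) ^ (-(5/4) + 1 : ℝ)) := by
      field_simp; ring
    rw [e2]
    have e3 : 0 ≤ C₀ * K := by positivity
    nlinarith
  have hb2 : |f M * Del M| ≤ C₀ * K := by
    rw [abs_mul]
    have e1 := abs_gy_le hδ (by omega : 1 ≤ n) v hM0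
    have e2 := hDelB M hMR
    have e3 : (M:ℝ) ^ (-1:ℝ) * (M:ℝ) ^ (3/4 : ℝ) = (M:ℝ) ^ (-(1/4):ℝ) := by
      rw [← Real.rpow_add hM0]; norm_num
    have e4 : (M:ℝ) ^ (-(1/4):ℝ) ≤ 1 := Real.rpow_le_one_of_one_le_of_nonpos hMR (by norm_num)
    calc |f M| * |Del M| ≤ ((1/δ) * (M:ℝ) ^ (-1:ℝ)) * (C₀ * (M:ℝ) ^ (3/4 : ℝ)) := by gcongr
      _ = (C₀ * (1/δ)) * ((M:ℝ) ^ (-1:ℝ) * (M:ℝ) ^ (3/4 : ℝ)) := by ring
      _ ≤ (C₀ * (1/δ)) * 1 := by rw [e3]; gcongr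
      _ ≤ C₀ * K := by rw [mul_one]; gcongr
  have hb3 : |f 1 * mt P 1| ≤ |P.eval 0| := by
    rw [abs_mul]
    have e1 := abs_gy_le_one δ n v
    have e2 : mt P 1 = P.eval 0 := by
      unfold mt
      rw [Real.log_one, one_mul]
    rw [e2]
    calc |f 1| * |P.eval 0| ≤ 1 * |P.eval 0| := by gcongr
      _ = _ := by ring
  have hfin : f M * Dk 3 M - (f M * mt P M - f 1 * mt P 1 - (∫ t in (1:ℝ)..M, f t * WW P t) +
      ∫ t in (1:ℝ)..M, deriv f t * Del t) - ∫ y in (1:ℝ)..M, f y * WW P y =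
      f M * Del M + f 1 * mt P 1 - ∫ t in (1:ℝ)..M, deriv f t * Del t := by
    rw [hDele]; ring
  rw [hfin]
  rw [abs_le] at hb1 hb2 hb3 ⊢
  constructor <;> nlinarith [hb1.1, hb1.2, hb2.1, hb2.2, hb3.1, hb3.2]

/-! ### The substitution -/

lemma Cq_le (δ : ℝ) (n : ℕ) (z v : ℝ) : |Cq δ n z v| ≤ ‖cf (3 * z * δ)‖ ^ n := by
  unfold Cq
  refine (Complex.abs_re_le_norm _).trans ?_
  rw [norm_mul, norm_ex, norm_pow, one_mul]

lemma Cq_le_one (δ : ℝ) (n : ℕ) (z v : ℝ) : |Cq δ n z v| ≤ 1 :=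
  (Cq_le δ n z v).trans (pow_le_one₀ (norm_nonneg _) (cf_le_one _))

lemma Cq_cont {δ : ℝ} (hδ : 0 < δ) (n : ℕ) (v : ℝ) : ContinuousOn (fun z => Cq δ n z v) (Set.Ioi 0) := by
  intro z hz
  have hz' : (0:ℝ) < z := hz
  apply ContinuousAt.continuousWithinAt
  unfold Cq
  have h1 : ContinuousAt (fun z : ℝ => ex (-(3 * z * v))) z := (ex_cont.comp (by fun_prop)).continuousAt
  have h2 : ContinuousAt (fun z : ℝ => cf (3 * z * δ)) z := by
    have h3 : ContinuousAt cf (3 * z * δ) := (hasDerivAt_cf (by positivity)).continuousAt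
    exact ContinuousAt.comp (f := fun z : ℝ => 3 * z * δ) h3 (by fun_prop)
  exact Complex.continuous_re.continuousAt.comp (h1.mul (h2.pow n))

/-- the integrand -/
noncomputable def qf (b c δ : ℝ) (n : ℕ) (v z : ℝ) : ℝ :=
  3 * ((9/2) * (Real.log z) ^ 2 + b * Real.log z + c) * Cq δ n z v

lemma qf_cont (b c : ℝ) {δ : ℝ} (hδ : 0 < δ) (n : ℕ) (v : ℝ) :
    ContinuousOn (qf b c δ n v) (Set.Ioi 0) := by
  unfold qf
  apply ContinuousOn.mul _ (Cq_cont hδ n v)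
  intro z hz
  have hz' : (0:ℝ) < z := hz
  apply ContinuousAt.continuousWithinAt
  have hl := Real.continuousAt_log hz'.ne'
  exact continuousAt_const.mul (((continuousAt_const.mul (hl.pow 2)).add (continuousAt_const.mul hl)).add
    continuousAt_const)

lemma abs_poly_le (b c L T : ℝ) (hT : 1 ≤ T) (hL : |L| ≤ 8 * T) :
    |3 * ((9/2) * L ^ 2 + b * L + c)| ≤ 3 * (288 + 8 * |b| + |c|) * T ^ 2 := by
  rw [abs_mul, abs_of_pos (by norm_num : (0:ℝ) < 3), mul_assoc]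
  apply mul_le_mul_of_nonneg_left _ (by norm_num : (0:ℝ) ≤ 3)
  have h0 : (0:ℝ) ≤ T := by linarith
  have h1 : |L| ^ 2 ≤ (8 * T) ^ 2 := pow_le_pow_left₀ (abs_nonneg _) hL 2
  have hT2 : T ≤ T ^ 2 := by nlinarith
  have h2 : |(9/2) * L ^ 2 + b * L + c| ≤ (9/2) * |L| ^ 2 + |b| * |L| + |c| := by
    refine (abs_add_le _ _).trans ?_
    have := abs_add_le ((9/2) * L ^ 2) (b * L)
    rw [abs_mul b L, abs_mul (9/2) (L^2), abs_of_pos (by norm_num : (0:ℝ) < 9/2), abs_pow] at this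
    linarith
  have h3 : |b| * |L| ≤ |b| * (8 * T ^ 2) := by
    apply mul_le_mul_of_nonneg_left _ (abs_nonneg _)
    linarith
  have h4 : |c| ≤ |c| * T ^ 2 := by
    have := abs_nonneg c
    nlinarith
  nlinarith

lemma abs_qf_top (b c : ℝ) {δ : ℝ} (hδ : 0 < δ) {n : ℕ} (hn : 2 ≤ n) (v : ℝ) {z : ℝ} (hz : 1 ≤ z) :
    |qf b c δ n v z| ≤ (3 * (288 + 8 * |b| + |c|) / δ^2) * z ^ (-(3/2) : ℝ) := by
  have hz0 : 0 < z := by linarith
  have hl0 : 0 ≤ Real.log z := Real.log_nonneg hz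
  have hT : 1 ≤ z ^ (1/4 : ℝ) := Real.one_le_rpow hz (by norm_num)
  have hL : |Real.log z| ≤ 8 * z ^ (1/4 : ℝ) := by
    rw [abs_of_nonneg hl0]
    have := Real.log_le_rpow_div hz0.le (by norm_num : (0:ℝ) < 1/4)
    linarith
  have h1 := abs_poly_le b c (Real.log z) (z ^ (1/4 : ℝ)) hT hL
  have h2 := cf3_le hδ hz0
  have h2' : 1 / (9 * (z * δ)) ≤ 1 / (z * δ) := by
    apply one_div_le_one_div_of_le (by positivity)
    have : 0 < z * δ := by positivity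
    linarith
  have h3 : |Cq δ n z v| ≤ (1 / (z * δ))^2 := by
    refine (Cq_le δ n z v).trans ?_
    refine (pow_le_pow_of_le_one (norm_nonneg _) (cf_le_one _) hn).trans ?_
    exact pow_le_pow_left₀ (norm_nonneg _) (h2.trans h2') 2
  have h4 : (z ^ (1/4 : ℝ)) ^ 2 * (1 / (z * δ))^2 = (1/δ^2) * z ^ (-(3/2) : ℝ) := by
    have e1 : (z ^ (1/4 : ℝ)) ^ 2 = z ^ (1/2 : ℝ) := by
      rw [← Real.rpow_natCast, ← Real.rpow_mul hz0.le]; norm_num
    have e2 : (1 / (z * δ))^2 = (1/δ^2) * z ^ (-2 : ℝ) := by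
      rw [Real.rpow_neg hz0.le, show (2:ℝ) = ((2:ℕ):ℝ) by norm_num, Real.rpow_natCast]
      field_simp
    rw [e1, e2, show z ^ (1/2 : ℝ) * ((1/δ^2) * z ^ (-2 : ℝ)) = (1/δ^2) * (z ^ (1/2 : ℝ) * z ^ (-2 : ℝ)) by ring,
      ← Real.rpow_add hz0]
    norm_num
  unfold qf
  rw [abs_mul]
  calc _ ≤ (3 * (288 + 8 * |b| + |c|) * (z ^ (1/4 : ℝ)) ^ 2) * (1 / (z * δ))^2 := by
        apply mul_le_mul h1 h3 (abs_nonneg _) (by positivity)
    _ = 3 * (288 + 8 * |b| + |c|) * ((z ^ (1/4 : ℝ)) ^ 2 * (1 / (z * δ))^2) := by ring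
    _ = _ := by rw [h4]; ring

lemma abs_qf_bot (b c δ : ℝ) (n : ℕ) (v : ℝ) {z : ℝ} (hz0 : 0 < z) (hz : z ≤ 1) :
    |qf b c δ n v z| ≤ (3 * (288 + 8 * |b| + |c|)) * z ^ (-(1/4) : ℝ) := by
  have hT : 1 ≤ z ^ (-(1/8) : ℝ) := Real.one_le_rpow_of_pos_of_le_one_of_nonpos hz0 hz (by norm_num)
  have hL : |Real.log z| ≤ 8 * z ^ (-(1/8) : ℝ) := by
    rw [abs_of_nonpos (Real.log_nonpos hz0.le hz), ← Real.log_inv]
    have := Real.log_le_rpow_div (by positivity : (0:ℝ) ≤ z⁻¹) (by norm_num : (0:ℝ) < 1/8)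
    rw [Real.inv_rpow hz0.le, ← Real.rpow_neg hz0.le] at this
    linarith
  have h1 := abs_poly_le b c (Real.log z) (z ^ (-(1/8) : ℝ)) hT hL
  have h3 := Cq_le_one δ n z v
  have e1 : (z ^ (-(1/8) : ℝ)) ^ 2 = z ^ (-(1/4) : ℝ) := by
    rw [← Real.rpow_natCast, ← Real.rpow_mul hz0.le]; norm_num
  unfold qf
  rw [abs_mul]
  calc _ ≤ (3 * (288 + 8 * |b| + |c|) * (z ^ (-(1/8) : ℝ)) ^ 2) * 1 := by
        apply mul_le_mul h1 h3 (abs_nonneg _) (by positivity)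
    _ = _ := by rw [e1, mul_one]

lemma qf_int_top (b c : ℝ) {δ : ℝ} (hδ : 0 < δ) {n : ℕ} (hn : 2 ≤ n) (v : ℝ) :
    IntegrableOn (qf b c δ n v) (Set.Ioi 1) := by
  have h1 : IntegrableOn (fun z : ℝ => (3 * (288 + 8 * |b| + |c|) / δ^2) * z ^ (-(3/2) : ℝ)) (Set.Ioi 1) :=
    (integrableOn_Ioi_rpow_of_lt (by norm_num) one_pos).const_mul _
  apply Integrable.mono' h1
  · exact ((qf_cont b c hδ n v).mono (Set.Ioi_subset_Ioi zero_le_one)).aestronglyMeasurable measurableSet_Ioi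
  · rw [ae_restrict_iff' measurableSet_Ioi]
    exact Eventually.of_forall (fun z hz => by rw [Real.norm_eq_abs]; exact abs_qf_top b c hδ hn v (le_of_lt hz))

lemma rpow14_int (K : ℝ) : IntegrableOn (fun z : ℝ => K * z ^ (-(1/4) : ℝ)) (Set.Ioc 0 1) := by
  have h := (intervalIntegral.intervalIntegrable_rpow' (a := 0) (b := 1) (r := -(1/4)) (by norm_num)).const_mul K
  rwa [intervalIntegrable_iff, Set.uIoc_of_le zero_le_one] at h

lemma qf_int_bot (b c : ℝ) {δ : ℝ} (hδ : 0 < δ) (n : ℕ) (v : ℝ) : IntegrableOn (qf b c δ n v) (Set.Ioc 0 1) := by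
  apply Integrable.mono' (rpow14_int (3 * (288 + 8 * |b| + |c|)))
  · exact ((qf_cont b c hδ n v).mono Set.Ioc_subset_Ioi_self).aestronglyMeasurable measurableSet_Ioc
  · rw [ae_restrict_iff' measurableSet_Ioc]
    exact Eventually.of_forall (fun z hz => by rw [Real.norm_eq_abs]; exact abs_qf_bot b c δ n v hz.1 hz.2)

lemma qf_bot_le (b c δ : ℝ) (n : ℕ) (v : ℝ) :
    |∫ z in Set.Ioc (0:ℝ) 1, qf b c δ n v z| ≤ 4 * (288 + 8 * |b| + |c|) := by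
  have h1 : ‖∫ z in Set.Ioc (0:ℝ) 1, qf b c δ n v z‖ ≤
      ∫ z in Set.Ioc (0:ℝ) 1, (3 * (288 + 8 * |b| + |c|)) * z ^ (-(1/4) : ℝ) := by
    apply norm_integral_le_of_norm_le (rpow14_int _)
    rw [ae_restrict_iff' measurableSet_Ioc]
    exact Eventually.of_forall (fun z hz => by rw [Real.norm_eq_abs]; exact abs_qf_bot b c δ n v hz.1 hz.2)
  rw [Real.norm_eq_abs] at h1
  refine h1.trans ?_
  rw [← intervalIntegral.integral_of_le zero_le_one, intervalIntegral.integral_const_mul, integral_rpow (Or.inl (by norm_num))]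
  norm_num
  linarith

lemma gcont (P : Polynomial ℝ) {δ : ℝ} (hδ : 0 < δ) {n : ℕ} (hn : 1 ≤ n) (v : ℝ) :
    ContinuousOn (fun y => gy δ n v y * WW P y) (Set.Ioi 0) := by
  apply ContinuousOn.mul _ (WW_cont P)
  intro y hy
  have hy' : (0:ℝ) < y := hy
  exact (gy_deriv hδ hn v hy').continuousAt.continuousWithinAt

lemma subst_cube (P : Polynomial ℝ) {b c : ℝ}
    (hP : ∀ z : ℝ, 0 < z → WW P (z ^ 3) = (9/2) * (Real.log z) ^ 2 + b * Real.log z + c)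
    {δ : ℝ} (hδ : 0 < δ) {n : ℕ} (hn : 1 ≤ n) (v : ℝ) {M : ℕ} (hM : 1 ≤ M) :
    ∫ y in (1:ℝ)..M, gy δ n v y * WW P y =
      ∫ z in (1:ℝ)..((M:ℝ) ^ (1/3 : ℝ)), qf b c δ n v z := by
  have hMR : (1:ℝ) ≤ M := by exact_mod_cast hM
  have hs : 1 ≤ (M:ℝ) ^ (1/3 : ℝ) := Real.one_le_rpow hMR (by norm_num)
  have hcube : ((M:ℝ) ^ (1/3 : ℝ)) ^ 3 = M := by
    rw [← Real.rpow_natCast, ← Real.rpow_mul (by linarith)]; norm_num
  have h := intervalIntegral.integral_comp_mul_deriv''' (a := 1) (b := (M:ℝ) ^ (1/3 : ℝ)) (f := fun z : ℝ => z^3)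
    (f' := fun z => 3 * z ^ 2) (g := fun y => gy δ n v y * WW P y)
    (by fun_prop)
    (fun z hz => by
      have := hasDerivAt_pow 3 z
      simp only [Nat.cast_ofNat, Nat.add_one_sub_one] at this
      exact this.hasDerivWithinAt)
    ?_ ?_ ?_
  · simp only [one_pow, hcube] at h
    rw [← h]
    apply intervalIntegral.integral_congr
    intro z hz
    rw [Set.uIcc_of_le hs] at hz
    have hz0 : 0 < z := by linarith [hz.1]
    simp only [Function.comp_apply]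
    unfold gy qf
    have e0 : (z^3) ^ (1/3 : ℝ) = z := by
      rw [← Real.rpow_natCast, ← Real.rpow_mul hz0.le]; norm_num
    rw [e0, hP z hz0]
    have e : (z^3) ^ (-(2/3) : ℝ) * z ^ 2 = 1 := by
      rw [← Real.rpow_natCast z 3, ← Real.rpow_mul hz0.le, ← Real.rpow_natCast z 2, ← Real.rpow_add hz0]
      norm_num
    calc (z^3) ^ (-(2/3) : ℝ) * Cq δ n z v * ((9/2) * (Real.log z) ^ 2 + b * Real.log z + c) * (3 * z ^ 2) =
        ((z^3) ^ (-(2/3) : ℝ) * z ^ 2) * (3 * ((9/2) * (Real.log z) ^ 2 + b * Real.log z + c) * Cq δ n z v) := by ring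
      _ = _ := by rw [e, one_mul]
  · apply ContinuousOn.mono (s := Set.Ioi 0) (gcont P hδ hn v)
    rintro y ⟨z, hz, rfl⟩
    rw [min_eq_left hs, max_eq_right hs] at hz
    have : 0 < z := by linarith [hz.1]
    exact pow_pos this 3
  · apply ContinuousOn.integrableOn_compact
    · exact isCompact_uIcc.image (by fun_prop)
    · apply ContinuousOn.mono (s := Set.Ioi 0) (gcont P hδ hn v)
      rintro y ⟨z, hz, rfl⟩
      rw [Set.uIcc_of_le hs] at hz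
      have : 0 < z := by linarith [hz.1]
      exact pow_pos this 3
  · apply ContinuousOn.integrableOn_compact isCompact_uIcc
    apply ContinuousOn.mul _ (by fun_prop)
    apply ContinuousOn.comp (t := Set.Ioi 0) (gcont P hδ hn v) (by fun_prop)
    intro z hz
    rw [Set.uIcc_of_le hs] at hz
    have : 0 < z := by linarith [hz.1]
    exact pow_pos this 3

lemma Q3_eq (b c : ℝ) {δ : ℝ} (hδ : 0 < δ) {n : ℕ} (hn : 2 ≤ n) (v : ℝ) :
    Q3 b c δ n v = (∫ z in Set.Ioc (0:ℝ) 1, qf b c δ n v z) + ∫ z in Set.Ioi (1:ℝ), qf b c δ n v z := by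
  rw [← setIntegral_union (Set.Ioc_disjoint_Ioi le_rfl) measurableSet_Ioi (qf_int_bot b c hδ n v)
    (qf_int_top b c hδ hn v), Set.Ioc_union_Ioi_eq_Ioi zero_le_one]
  rfl

/-! ### Summability -/

lemma dk_summable : Summable (fun m : ℕ => dk 3 m * (m:ℝ) ^ (-2 : ℝ)) := by
  have h1 : LSeriesSummable (fun n => ((ArithmeticFunction.zeta : ArithmeticFunction ℂ)) n) 2 := by
    have := ArithmeticFunction.LSeriesSummable_zeta_iff (s := 2)
    simpa using this.2 (by norm_num)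
  have h2 := ArithmeticFunction.LSeriesSummable_mul h1 h1
  have h3 := ArithmeticFunction.LSeriesSummable_mul h2 h1
  have h4 := h3.norm
  refine h4.congr (fun m => ?_)
  rcases Nat.eq_zero_or_pos m with rfl | hm
  · simp [dk_zero]
  · rw [LSeries.term_of_ne_zero hm.ne']
    have e : ((ArithmeticFunction.zeta : ArithmeticFunction ℂ) * (ArithmeticFunction.zeta : ArithmeticFunction ℂ) *
        (ArithmeticFunction.zeta : ArithmeticFunction ℂ)) m = ((dk 3 m : ℝ) : ℂ) := by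
      rw [← ArithmeticFunction.natCoe_mul, ← ArithmeticFunction.natCoe_mul, ArithmeticFunction.natCoe_apply]
      unfold dk
      rw [show (ArithmeticFunction.zeta ^ 3 : ArithmeticFunction ℕ) =
        ArithmeticFunction.zeta * ArithmeticFunction.zeta * ArithmeticFunction.zeta by
          rw [pow_succ, pow_two]]
      exact (Complex.ofReal_natCast _).symm
    rw [e, norm_div, Complex.norm_real, Real.norm_eq_abs, abs_of_nonneg (dk_nonneg 3 m)]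
    have hm' : (0:ℝ) < m := by exact_mod_cast hm
    rw [Real.rpow_neg hm'.le, div_eq_mul_inv]
    congr 2
    rw [show (2:ℂ) = ((2:ℝ) : ℂ) by norm_num, Complex.norm_natCast_cpow_of_pos hm]
    simp

lemma gy_dk_summable {δ : ℝ} (hδ : 0 < δ) {n : ℕ} (hn : 4 ≤ n) (v : ℝ) :
    Summable (fun m : ℕ => gy δ n v m * dk 3 m) := by
  have h := dk_summable.mul_left ((1/δ)^4)
  refine Summable.of_norm_bounded h (fun m => ?_)
  rcases Nat.eq_zero_or_pos m with rfl | hm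
  · simp [dk_zero]
  · have hm' : (0:ℝ) < m := by exact_mod_cast hm
    rw [Real.norm_eq_abs, abs_mul, abs_of_nonneg (dk_nonneg 3 m)]
    have hs : 0 < (m:ℝ) ^ (1/3 : ℝ) := Real.rpow_pos_of_pos hm' _
    have h1 : |Cq δ n ((m:ℝ) ^ (1/3 : ℝ)) v| ≤ (1/δ)^4 * (m:ℝ) ^ (-(4/3) : ℝ) := by
      refine (Cq_le δ n _ v).trans ?_
      have h2 := cf3_le hδ hs
      have h2' : 1 / (9 * ((m:ℝ) ^ (1/3 : ℝ) * δ)) ≤ 1 / ((m:ℝ) ^ (1/3 : ℝ) * δ) := by
        apply one_div_le_one_div_of_le (by positivity)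
        have : 0 < (m:ℝ) ^ (1/3 : ℝ) * δ := by positivity
        linarith
      refine (pow_le_pow_of_le_one (norm_nonneg _) (cf_le_one _) hn).trans ?_
      refine (pow_le_pow_left₀ (norm_nonneg _) (h2.trans h2') 4).trans ?_
      have e1 : ((m:ℝ) ^ (1/3 : ℝ)) ^ 4 = (m:ℝ) ^ (4/3 : ℝ) := by
        rw [← Real.rpow_natCast, ← Real.rpow_mul hm'.le]; norm_num
      rw [Real.rpow_neg hm'.le, ← e1]
      apply le_of_eq
      field_simp
    unfold gy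
    rw [abs_mul, abs_of_pos (by positivity : 0 < (m:ℝ) ^ (-(2/3) : ℝ))]
    have e2 : (m:ℝ) ^ (-(2/3) : ℝ) * (m:ℝ) ^ (-(4/3) : ℝ) = (m:ℝ) ^ (-2 : ℝ) := by
      rw [← Real.rpow_add hm']; norm_num
    calc (m:ℝ) ^ (-(2/3) : ℝ) * |Cq δ n ((m:ℝ) ^ (1/3 : ℝ)) v| * dk 3 m ≤
        (m:ℝ) ^ (-(2/3) : ℝ) * ((1/δ)^4 * (m:ℝ) ^ (-(4/3) : ℝ)) * dk 3 m := by
          have := dk_nonneg 3 m
          gcongr
      _ = (1/δ)^4 * (dk 3 m * ((m:ℝ) ^ (-(2/3) : ℝ) * (m:ℝ) ^ (-(4/3) : ℝ))) := by ring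
      _ = _ := by rw [e2]

lemma WW_poly (P : Polynomial ℝ) (hP : P.natDegree < 3) (hP2 : P.coeff 2 = 1/2) {z : ℝ} :
    WW P (z ^ 3) = (9/2) * (Real.log z) ^ 2 + (3 * (P.coeff 1 + 1)) * Real.log z + (P.coeff 0 + P.coeff 1) := by
  have h := Polynomial.as_sum_range_C_mul_X_pow' P hP
  unfold WW
  rw [Real.log_pow]
  have e1 : ∀ x : ℝ, P.eval x = P.coeff 0 + P.coeff 1 * x + (1/2) * x ^ 2 := by
    intro x
    conv_lhs => rw [h]
    simp [Finset.sum_range_succ, hP2]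
  have e2 : ∀ x : ℝ, P.derivative.eval x = P.coeff 1 + x := by
    intro x
    conv_lhs => rw [h]
    simp [Finset.sum_range_succ, hP2]
    ring
  rw [e1, e2]
  push_cast
  ring

/-- TASK A2: the sum over `m` is the integral up to `O(1 + v/δ²)`, `k = 3` -/
theorem sum_sub_Q3 (P : Polynomial ℝ) (hP : P.natDegree < 3) (hP2 : P.coeff 2 = 1/2) (C₀ : ℝ)
    (hD : ∀ y : ℝ, 1 ≤ y → |Dk 3 y - y * P.eval (Real.log y)| ≤ C₀ * y ^ (3/4 : ℝ)) :
    ∃ C b c : ℝ, 0 < C ∧ ∀ (n : ℕ) (δ v : ℝ), 4 ≤ n → 0 < δ → n * δ ≤ v → v ≤ 1 →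
    |∑' m : ℕ, dk 3 m * (m : ℝ) ^ (-(2/3) : ℝ) * Cq δ n ((m : ℝ) ^ (1/3 : ℝ)) v - Q3 b c δ n v| ≤
      C * (1 + v / δ ^ 2) := by
  have hC0 : 0 ≤ C₀ := by
    have := (abs_nonneg _).trans (hD 1 le_rfl)
    rwa [Real.one_rpow, mul_one] at this
  set b := 3 * (P.coeff 1 + 1) with hb
  set c := P.coeff 0 + P.coeff 1 with hc
  refine ⟨|P.eval 0| + 5 * C₀ + 4 * (288 + 8 * |b| + |c|) + 1, b, c, by positivity, ?_⟩
  intro n δ v hn hδ hv hv1
  have hn1 : 1 ≤ n := by omega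
  have hn2 : 2 ≤ n := by omega
  have hn' : (1:ℝ) ≤ n := by exact_mod_cast hn1
  have hv0 : 0 ≤ v := by nlinarith
  have hvd : 0 ≤ v / δ ^ 2 := by positivity
  have hsum := gy_dk_summable hδ hn v
  have e1 : ∑' m : ℕ, dk 3 m * (m : ℝ) ^ (-(2/3) : ℝ) * Cq δ n ((m : ℝ) ^ (1/3 : ℝ)) v =
      ∑' m : ℕ, gy δ n v m * dk 3 m := by
    apply tsum_congr
    intro m
    unfold gy
    ring
  rw [e1, Q3_eq b c hδ hn2 v]
  have t1 : Tendsto (fun M : ℕ => ∑ m ∈ Finset.Icc 0 M, gy δ n v m * dk 3 m) atTop (𝓝 (∑' m : ℕ, gy δ n v m * dk 3 m)) := by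
    have h := (hsum.hasSum.tendsto_sum_nat).comp (tendsto_add_atTop_nat 1)
    refine h.congr (fun M => ?_)
    simp only [Function.comp_apply]
    apply Finset.sum_congr _ (fun _ _ => rfl)
    ext k; simp only [Finset.mem_Icc, Finset.mem_range]; omega
  have t2 : Tendsto (fun M : ℕ => ∫ z in (1:ℝ)..((M:ℝ) ^ (1/3 : ℝ)), qf b c δ n v z) atTop
      (𝓝 (∫ z in Set.Ioi (1:ℝ), qf b c δ n v z)) := by
    apply intervalIntegral_tendsto_integral_Ioi 1 (qf_int_top b c hδ hn2 v)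
    exact (tendsto_rpow_atTop (by norm_num)).comp tendsto_natCast_atTop_atTop
  have t3 := (t1.sub t2).abs
  have hle : |∑' m : ℕ, gy δ n v m * dk 3 m - ∫ z in Set.Ioi (1:ℝ), qf b c δ n v z| ≤
      |P.eval 0| + 5 * C₀ * (v / δ ^ 2) := by
    apply le_of_tendsto t3
    filter_upwards [eventually_ge_atTop 1] with M hM
    rw [← subst_cube P (b := b) (c := c) (fun z hz => WW_poly P hP hP2) hδ hn1 v hM]
    exact part_sum P hD hδ hn2 hv hM
  have hb' := qf_bot_le b c δ n v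
  have hPn : 0 ≤ |P.eval 0| := abs_nonneg _
  have hbn : 0 ≤ |b| := abs_nonneg _
  have hcn : 0 ≤ |c| := abs_nonneg _
  have hp1 : 0 ≤ (|P.eval 0| + 4 * (288 + 8 * |b| + |c|) + 1) * (v / δ ^ 2) := by positivity
  rw [abs_le] at hle hb' ⊢
  constructor <;> nlinarith [hle.1, hle.2, hb'.1, hb'.2]

end Pool.Agent.H459R2.PZA2
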