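import Mathlib
import Pool.Agent.H925R3.DC.Stubs

/-!
# LIN (for nonempty index types)
-/

set_option autoImplicit false

namespace Pool.Agent.H459R2.DCLIN

open Finset
open Pool.Agent.H925R3.DC

/-- LIN with the additional hypothesis that `ι` is nonempty (the only excluded case is `ι` empty and
`S` empty, in which the inequality is false). -/
def LIN' : Prop := ∀ (ι : Type) [Fintype ι] [Nonempty ι] (S : Finset ℕ) (k X H n : ℕ) (v : ι → ℤ),
  (∀ p ∈ S, p.Prime ∧ 2 < p ∧ p ≤ X ∧ ∃ j, ¬ (p : ℤ) ∣ v j) → Fintype.card ι * n ≤ S.card →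
  1 ≤ n →
  (Nat.card {c : ι → ℤ // (∀ j, |c j| ≤ H) ∧ ∀ p ∈ S, IsSquare ((∑ j, c j * v j : ℤ) : ZMod p)}
    : ℝ) * (n.choose k : ℝ) ≤ 6 * 4 ^ k * (2 * H + 1 + (X : ℝ) ^ (2 * k)) *
      (2 * H + 1) ^ (Fintype.card ι - 1)

theorem sum_split {ι : Type} [Fintype ι] [DecidableEq ι] (c v : ι → ℤ) (j : ι) :
    ∑ i, c i * v i = c j * v j + ∑ i, Function.update c j 0 i * v i := by
  rw [← Finset.add_sum_erase _ _ (Finset.mem_univ j),
    ← Finset.add_sum_erase _ (fun i => Function.update c j 0 i * v i) (Finset.mem_univ j)]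
  simp only [Function.update_self, zero_mul, zero_add]
  congr 1
  apply Finset.sum_congr rfl
  intro i hi
  rw [Function.update_of_ne (Finset.ne_of_mem_erase hi)]

/-- Some coordinate is nonzero modulo many primes. -/
theorem exists_coord {ι : Type} [Fintype ι] [Nonempty ι] (S : Finset ℕ) (n : ℕ) (v : ι → ℤ)
    (hS : ∀ p ∈ S, ∃ j, ¬ (p : ℤ) ∣ v j) (hn : Fintype.card ι * n ≤ S.card) (hn1 : 1 ≤ n) :
    ∃ j, n ≤ (S.filter (fun p : ℕ => ¬ (p : ℤ) ∣ v j)).card := by
  classical
  by_contra hcon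
  push Not at hcon
  have h1 : S ⊆ Finset.univ.biUnion (fun j => S.filter (fun p : ℕ => ¬ (p : ℤ) ∣ v j)) := by
    intro p hp
    obtain ⟨j, hj⟩ := hS p hp
    rw [Finset.mem_biUnion]
    exact ⟨j, Finset.mem_univ _, Finset.mem_filter.mpr ⟨hp, hj⟩⟩
  have h2 := le_trans (Finset.card_le_card h1) Finset.card_biUnion_le
  have h3 : ∑ j, (S.filter (fun p : ℕ => ¬ (p : ℤ) ∣ v j)).card ≤ ∑ _j : ι, (n - 1) := by
    apply Finset.sum_le_sum
    intro j _
    have := hcon j
    omega
  rw [Finset.sum_const, Finset.card_univ, smul_eq_mul] at h3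
  have h4 : 0 < Fintype.card ι := Fintype.card_pos
  have h5 : Fintype.card ι * (n - 1) < Fintype.card ι * n :=
    Nat.mul_lt_mul_of_pos_left (by omega) h4
  omega

theorem lin (h : LSQ) : LIN' := by
  classical
  intro ι _ _ S k X H n v hS hn hn1
  obtain ⟨j, hj⟩ := exists_coord S n v (fun p hp => (hS p hp).2.2.2) hn hn1
  set Sj : Finset ℕ := S.filter (fun p : ℕ => ¬ (p : ℤ) ∣ v j) with hSj
  set K : ℝ := 6 * 4 ^ k * (2 * H + 1 + (X : ℝ) ^ (2 * k)) with hK
  -- the sets
  set B : Finset (ι → ℤ) := Fintype.piFinset (fun _ : ι => Finset.Icc (-(H : ℤ)) H) with hB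
  set Tf : Finset (ι → ℤ) :=
    B.filter (fun c => ∀ p ∈ S, IsSquare ((∑ j, c j * v j : ℤ) : ZMod p)) with hTf
  set B0 : Finset (ι → ℤ) :=
    Fintype.piFinset (fun i : ι => if i = j then {(0 : ℤ)} else Finset.Icc (-(H : ℤ)) H) with hB0
  have hcardT : Nat.card {c : ι → ℤ // (∀ j, |c j| ≤ H) ∧
      ∀ p ∈ S, IsSquare ((∑ j, c j * v j : ℤ) : ZMod p)} = Tf.card := by
    have h1 : {c : ι → ℤ | (∀ j, |c j| ≤ H) ∧
        ∀ p ∈ S, IsSquare ((∑ j, c j * v j : ℤ) : ZMod p)} = (↑Tf : Set (ι → ℤ)) := by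
      ext c
      rw [Finset.mem_coe, hTf, Finset.mem_filter, hB, Fintype.mem_piFinset]
      constructor
      · rintro ⟨h1, h2⟩
        exact ⟨fun i => Finset.mem_Icc.mpr (abs_le.mp (h1 i)), h2⟩
      · rintro ⟨h1, h2⟩
        exact ⟨fun i => abs_le.mpr (Finset.mem_Icc.mp (h1 i)), h2⟩
    have h2 : Set.ncard {c : ι → ℤ | (∀ j, |c j| ≤ H) ∧
        ∀ p ∈ S, IsSquare ((∑ j, c j * v j : ℤ) : ZMod p)} = Tf.card := by
      rw [h1, Set.ncard_coe_finset]
    exact h2
  have hcardB0 : (B0.card : ℝ) = (2 * H + 1) ^ (Fintype.card ι - 1) := by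
    rw [hB0, Fintype.card_piFinset]
    have h1 : ∏ i : ι, (if i = j then {(0 : ℤ)} else Finset.Icc (-(H : ℤ)) H).card =
        ∏ i ∈ Finset.univ.erase j, (2 * H + 1) := by
      rw [← Finset.mul_prod_erase _ _ (Finset.mem_univ j)]
      rw [if_pos rfl, Finset.card_singleton, one_mul]
      apply Finset.prod_congr rfl
      intro i hi
      rw [if_neg (Finset.ne_of_mem_erase hi), Int.card_Icc]
      omega
    rw [h1, Finset.prod_const, Finset.card_erase_of_mem (Finset.mem_univ j), Finset.card_univ]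
    push_cast
    ring
  -- the map
  have hmap : ∀ c ∈ Tf, Function.update c j 0 ∈ B0 := by
    intro c hc
    rw [hTf, Finset.mem_filter, hB, Fintype.mem_piFinset] at hc
    rw [hB0, Fintype.mem_piFinset]
    intro i
    by_cases hi : i = j
    · rw [if_pos hi, hi, Function.update_self, Finset.mem_singleton]
    · rw [if_neg hi, Function.update_of_ne hi]
      exact hc.1 i
  have hfib : ∀ b ∈ B0, ((Tf.filter (fun c => Function.update c j 0 = b)).card : ℝ) *
      (n.choose k : ℝ) ≤ K := by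
    intro b _
    have hls := h Sj k X (2 * H + 1) (fun _ => v j)
      (fun _ => (∑ i, b i * v i) - ((H : ℤ) + 1) * v j) (by
        intro p hp
        rw [hSj, Finset.mem_filter] at hp
        obtain ⟨h1, h2, h3, _⟩ := hS p hp.1
        exact ⟨h1, h2, h3, hp.2⟩)
    set Nb : Finset ℕ := (Finset.Icc 1 (2 * H + 1)).filter (fun m : ℕ => ∀ p ∈ Sj,
      IsSquare ((v j * m + ((∑ i, b i * v i) - ((H : ℤ) + 1) * v j) : ℤ) : ZMod p)) with hNb
    have hcardN : Nat.card {m : ℕ // m ∈ Finset.Icc 1 (2 * H + 1) ∧ ∀ p ∈ Sj,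
        IsSquare ((v j * m + ((∑ i, b i * v i) - ((H : ℤ) + 1) * v j) : ℤ) : ZMod p)} =
        Nb.card := by
      have h1 : {m : ℕ | m ∈ Finset.Icc 1 (2 * H + 1) ∧ ∀ p ∈ Sj,
          IsSquare ((v j * m + ((∑ i, b i * v i) - ((H : ℤ) + 1) * v j) : ℤ) : ZMod p)} =
          (↑Nb : Set ℕ) := by
        ext m
        rw [Finset.mem_coe, hNb, Finset.mem_filter]
        rfl
      have h2 : Set.ncard {m : ℕ | m ∈ Finset.Icc 1 (2 * H + 1) ∧ ∀ p ∈ Sj,
          IsSquare ((v j * m + ((∑ i, b i * v i) - ((H : ℤ) + 1) * v j) : ℤ) : ZMod p)} =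
          Nb.card := by
        rw [h1, Set.ncard_coe_finset]
      exact h2
    rw [hcardN] at hls
    have hle : (Tf.filter (fun c => Function.update c j 0 = b)).card ≤ Nb.card := by
      apply Finset.card_le_card_of_injOn (fun c : ι → ℤ => (c j + (H : ℤ) + 1).toNat)
      · intro c hc
        rw [Finset.mem_coe, Finset.mem_filter, hTf, Finset.mem_filter, hB,
          Fintype.mem_piFinset] at hc
        obtain ⟨⟨hc1, hc2⟩, hc3⟩ := hc
        have h1 := Finset.mem_Icc.mp (hc1 j)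
        rw [Finset.mem_coe, hNb, Finset.mem_filter, Finset.mem_Icc]
        beta_reduce
        have h2 : (((c j + H + 1).toNat : ℕ) : ℤ) = c j + H + 1 := Int.toNat_of_nonneg (by omega)
        refine ⟨⟨by omega, by omega⟩, ?_⟩
        intro p hp
        have hpS : p ∈ S := (Finset.mem_filter.mp hp).1
        have h3 := hc2 p hpS
        rw [sum_split c v j, hc3] at h3
        have h4 : v j * (((c j + H + 1).toNat : ℕ) : ℤ) +
            ((∑ i, b i * v i) - ((H : ℤ) + 1) * v j) = c j * v j + ∑ i, b i * v i := by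
          rw [h2]
          ring
        rw [h4]
        exact h3
      · intro c hc d hd hcd
        rw [Finset.mem_coe, Finset.mem_filter, hTf, Finset.mem_filter, hB,
          Fintype.mem_piFinset] at hc hd
        obtain ⟨⟨hc1, _⟩, hc3⟩ := hc
        obtain ⟨⟨hd1, _⟩, hd3⟩ := hd
        have h1 := Finset.mem_Icc.mp (hc1 j)
        have h2 := Finset.mem_Icc.mp (hd1 j)
        have h3 : (c j + H + 1).toNat = (d j + H + 1).toNat := hcd
        have h4 : c j = d j := by omega
        funext i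
        by_cases hi : i = j
        · rw [hi]
          exact h4
        · have h5 : Function.update c j 0 i = Function.update d j 0 i := by rw [hc3, hd3]
          rw [Function.update_of_ne hi, Function.update_of_ne hi] at h5
          exact h5
    have hch : (n.choose k : ℝ) ≤ (Sj.card.choose k : ℝ) := by
      exact_mod_cast Nat.choose_le_choose k hj
    calc ((Tf.filter (fun c => Function.update c j 0 = b)).card : ℝ) * (n.choose k : ℝ)
        ≤ (Nb.card : ℝ) * (Sj.card.choose k : ℝ) := by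
          apply mul_le_mul _ hch (by positivity) (by positivity)
          exact_mod_cast hle
      _ ≤ 6 * 4 ^ k * (((2 * H + 1 : ℕ) : ℝ) + (X : ℝ) ^ (2 * k)) := hls
      _ = K := by
          rw [hK]
          push_cast
          ring
  rw [hcardT, Finset.card_eq_sum_card_fiberwise hmap]
  push_cast
  rw [Finset.sum_mul]
  calc ∑ b ∈ B0, ((Tf.filter (fun c => Function.update c j 0 = b)).card : ℝ) * (n.choose k : ℝ)
      ≤ ∑ _b ∈ B0, K := Finset.sum_le_sum hfib
    _ = K * (2 * H + 1) ^ (Fintype.card ι - 1) := by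
        rw [Finset.sum_const, nsmul_eq_mul, hcardB0, mul_comm]

end Pool.Agent.H459R2.DCLIN
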