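import Mathlib
import Pool.Agent.H276R2.PalT8

/-!
# Tasks Q5 of the palindrome project: Bombieri–Vinogradov form at level `10^(3L/5)`
-/

set_option autoImplicit false

namespace Pool.Agent.H459R2.PalQ5

open Finset Filter Topology Pool.Agent.Helper112 Pool.Agent.H476R2.Pal
open Pool.Agent.H276R2.PalT8

/-- general form: any level `D L ≤ 10 ^ L` -/
theorem BV_gen (D : ℕ → ℕ) (hDL : ∀ L : ℕ, (D L : ℝ) ≤ (10 : ℝ) ^ L)
    (hU : ∀ A : ℕ, ∀ᶠ L : ℕ in atTop,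
      ∑ q ∈ (Icc 2 (D L)).filter (fun q => q.Coprime 10),
        (q.divisors.card : ℝ) ^ 2 * U L q / q ≤ 1 / (L : ℝ) ^ A) (A : ℕ) :
    ∀ᶠ L : ℕ in atTop, ∀ h : ℕ → ℕ,
    ∑ q ∈ (Icc 1 (D L)).filter (fun q => q.Coprime 10),
      (q.divisors.card : ℝ) ^ 2 * |cnt L q (h q) - 10 ^ L / q| ≤ 10 ^ L / (L : ℝ) ^ A := by
  filter_upwards [hU (A + 5), eventually_ge_atTop 256] with L hL hL81 h
  have hL81' : (256 : ℝ) ≤ L := by exact_mod_cast hL81
  have hL0 : (0 : ℝ) < L := by linarith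
  have h1 : ∑ q ∈ (Icc 1 (D L)).filter (fun q => q.Coprime 10),
      (q.divisors.card : ℝ) ^ 2 * |cnt L q (h q) - 10 ^ L / q| ≤
      ∑ q ∈ (Icc 1 (D L)).filter (fun q => q.Coprime 10),
      (q.divisors.card : ℝ) ^ 2 * (10 ^ L / q * ∑ d ∈ q.divisors.filter (fun d => 1 < d), U L d) := by
    refine sum_le_sum fun q hq => ?_
    rw [mem_filter] at hq
    exact mul_le_mul_of_nonneg_left (cnt_bound L q (h q) (by omega) hq.2) (by positivity)
  have h2 := h1.trans (double L (D L))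
  have h3 := Pool.Agent.H316R2.tau_sq_sum_le (D L)
  have hlog : 1 + Real.log (D L) ≤ 4 * L := by
    rcases Nat.eq_zero_or_pos (D L) with h0 | h0
    · rw [h0]; simp; linarith
    · have h4 : Real.log (D L) ≤ L * Real.log 10 := by
        rw [← Real.log_pow]
        exact Real.log_le_log (by exact_mod_cast h0) (hDL L)
      have h5 : Real.log 10 ≤ 3 := by
        have : Real.log 10 ≤ Real.log (2 ^ 4) := Real.log_le_log (by norm_num) (by norm_num)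
        rw [Real.log_pow] at this
        have h6 := Real.log_two_lt_d9
        push_cast at this
        linarith
      nlinarith
  have hlog0 : 0 ≤ 1 + Real.log (D L) := by
    have := Real.log_natCast_nonneg (D L)
    linarith
  have h4 : ∑ e ∈ Icc 1 (D L), (e.divisors.card : ℝ) ^ 2 / e ≤ 256 * (L : ℝ) ^ 4 := by
    refine h3.trans ?_
    calc (1 + Real.log (D L)) ^ 4 ≤ (4 * (L : ℝ)) ^ 4 := by gcongr
      _ = 256 * (L : ℝ) ^ 4 := by ring
  refine h2.trans ?_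
  have hS0 : 0 ≤ ∑ e ∈ Icc 1 (D L), (e.divisors.card : ℝ) ^ 2 / e :=
    sum_nonneg fun _ _ => by positivity
  calc 10 ^ L * ((∑ d ∈ (Icc 2 (D L)).filter (fun q => q.Coprime 10),
      (d.divisors.card : ℝ) ^ 2 * U L d / d) *
        ∑ e ∈ Icc 1 (D L), (e.divisors.card : ℝ) ^ 2 / e)
      ≤ 10 ^ L * ((1 / (L : ℝ) ^ (A + 5)) * (256 * (L : ℝ) ^ 4)) :=
        mul_le_mul_of_nonneg_left (mul_le_mul hL h4 hS0 (by positivity)) (by positivity)
    _ ≤ 10 ^ L / (L : ℝ) ^ A := by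
        have h5 : (1 / (L : ℝ) ^ (A + 5)) * (256 * (L : ℝ) ^ 4) = 256 / L * (1 / (L : ℝ) ^ A) := by
          have hy : ((L : ℝ) ^ A) ≠ 0 := by positivity
          have hx : (L : ℝ) ≠ 0 := hL0.ne'
          rw [pow_add]
          generalize (L : ℝ) ^ A = y at hy
          generalize (L : ℝ) = x at hx
          field_simp
        rw [h5]
        have h6 : 256 / (L : ℝ) ≤ 1 := by rw [div_le_one hL0]; exact hL81'
        have h7 : (0 : ℝ) < 1 / (L : ℝ) ^ A := by positivity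
        calc (10 : ℝ) ^ L * (256 / L * (1 / (L : ℝ) ^ A))
            ≤ 10 ^ L * (1 * (1 / (L : ℝ) ^ A)) := by gcongr
          _ = _ := by ring

lemma level_le (L : ℕ) : ((⌊(10 : ℝ) ^ ((3 / 5 : ℝ) * L)⌋₊ : ℕ) : ℝ) ≤ (10 : ℝ) ^ L := by
  refine (Nat.floor_le (by positivity)).trans ?_
  rw [← Real.rpow_natCast]
  refine Real.rpow_le_rpow_of_exponent_le (by norm_num) ?_
  have : (0 : ℝ) ≤ L := Nat.cast_nonneg _
  linarith

/-- Q5 from the statement of Q4 -/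
theorem BV2_of (hU : ∀ A : ℕ, ∀ᶠ L : ℕ in atTop,
    ∑ q ∈ (Icc 2 ⌊(10 : ℝ) ^ ((3 / 5 : ℝ) * L)⌋₊).filter (fun q => q.Coprime 10),
      (q.divisors.card : ℝ) ^ 2 * U L q / q ≤ 1 / (L : ℝ) ^ A)
    (A : ℕ) : ∀ᶠ L : ℕ in atTop, ∀ h : ℕ → ℕ,
    ∑ q ∈ (Icc 1 ⌊(10 : ℝ) ^ ((3 / 5 : ℝ) * L)⌋₊).filter (fun q => q.Coprime 10),
      (q.divisors.card : ℝ) ^ 2 * |cnt L q (h q) - 10 ^ L / q| ≤ 10 ^ L / (L : ℝ) ^ A :=
  BV_gen (fun L => ⌊(10 : ℝ) ^ ((3 / 5 : ℝ) * L)⌋₊) level_le hU A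

end Pool.Agent.H459R2.PalQ5
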