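import Mathlib
import Pool.Agent.H861R2.Pal.T12

/-!
# Task Q6 of the palindrome project: all palindromes with `2 L + 1` digits, level `10^(3L/5)`
-/

set_option autoImplicit false

namespace Pool.Agent.H459R2.PalQ6

open Finset Filter Topology Pool.Agent.H476R2.Pal Pool.Agent.H861R2.Pal

/-- general form: any level `D L` -/
theorem BV_all_gen (D : ℕ → ℕ) (hBV : ∀ A : ℕ, ∀ᶠ L : ℕ in atTop, ∀ h : ℕ → ℕ,
      ∑ q ∈ (Icc 1 (D L)).filter (fun q => q.Coprime 10),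
        (q.divisors.card : ℝ) ^ 2 * |cnt L q (h q) - 10 ^ L / q| ≤ 10 ^ L / (L : ℝ) ^ A)
    (A : ℕ) : ∀ᶠ L : ℕ in atTop, ∀ h : ℕ → ℕ,
    ∑ q ∈ (Icc 1 (D L)).filter (fun q => q.Coprime 10),
      |(((palin L).filter (fun n => n ≡ h q [MOD q])).card : ℝ) - 9 * 10 ^ L / q| ≤
        10 ^ L / (L : ℝ) ^ A := by
  filter_upwards [hBV (A + 1), eventually_ge_atTop 9] with L hL hL9 h
  have hL9' : (9 : ℝ) ≤ L := by exact_mod_cast hL9
  have hL0 : (0 : ℝ) < L := by linarith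
  have h1 : ∀ q ∈ (Icc 1 (D L)).filter (fun q => q.Coprime 10),
      |(((palin L).filter (fun n => n ≡ h q [MOD q])).card : ℝ) - 9 * 10 ^ L / q|
        ≤ ∑ l ∈ Icc 1 9, (q.divisors.card : ℝ) ^ 2 *
          |cnt L q (h q + (q - 1) * ((l - 1) * (10 ^ (2 * L) + 1))) - 10 ^ L / q| := by
    intro q hq
    rw [mem_filter, mem_Icc] at hq
    rw [card_eq L (by omega) q (h q) hq.1.1]
    have h2 : (9 : ℝ) * 10 ^ L / q = ∑ _l ∈ Icc 1 9, (10 : ℝ) ^ L / q := by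
      rw [sum_const, Nat.card_Icc, nsmul_eq_mul]
      norm_num
      ring
    rw [h2, ← sum_sub_distrib]
    refine (abs_sum_le_sum_abs _ _).trans ?_
    apply sum_le_sum
    intro l _
    have h3 : (1 : ℝ) ≤ (q.divisors.card : ℝ) ^ 2 := by
      have h4 : 1 ≤ q.divisors.card := Finset.card_pos.2 ⟨1, by
        rw [Nat.mem_divisors]; exact ⟨one_dvd _, by omega⟩⟩
      have h5 : (1 : ℝ) ≤ q.divisors.card := by exact_mod_cast h4
      nlinarith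
    exact le_mul_of_one_le_left (abs_nonneg _) h3
  refine (sum_le_sum h1).trans ?_
  rw [sum_comm]
  calc ∑ l ∈ Icc 1 9, ∑ q ∈ (Icc 1 (D L)).filter (fun q => q.Coprime 10),
        (q.divisors.card : ℝ) ^ 2 *
          |cnt L q (h q + (q - 1) * ((l - 1) * (10 ^ (2 * L) + 1))) - 10 ^ L / q|
      ≤ ∑ _l ∈ Icc 1 9, 10 ^ L / (L : ℝ) ^ (A + 1) :=
        sum_le_sum fun l _ => hL (fun q => h q + (q - 1) * ((l - 1) * (10 ^ (2 * L) + 1)))
    _ = 9 * (10 ^ L / (L : ℝ) ^ (A + 1)) := by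
        rw [sum_const, Nat.card_Icc, nsmul_eq_mul]; norm_num
    _ ≤ 10 ^ L / (L : ℝ) ^ A := by
        rw [pow_succ, ← mul_div_assoc, div_le_div_iff₀ (by positivity) (by positivity)]
        have : (9 : ℝ) * (10 ^ L * (L : ℝ) ^ A) ≤ L * (10 ^ L * (L : ℝ) ^ A) :=
          mul_le_mul_of_nonneg_right hL9' (by positivity)
        linarith

/-- Q6 from the statement of Q5 -/
theorem BV2_all_of (hBV : ∀ A : ℕ, ∀ᶠ L : ℕ in atTop, ∀ h : ℕ → ℕ,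
      ∑ q ∈ (Icc 1 ⌊(10 : ℝ) ^ ((3 / 5 : ℝ) * L)⌋₊).filter (fun q => q.Coprime 10),
        (q.divisors.card : ℝ) ^ 2 * |cnt L q (h q) - 10 ^ L / q| ≤ 10 ^ L / (L : ℝ) ^ A)
    (A : ℕ) : ∀ᶠ L : ℕ in atTop, ∀ h : ℕ → ℕ,
    ∑ q ∈ (Icc 1 ⌊(10 : ℝ) ^ ((3 / 5 : ℝ) * L)⌋₊).filter (fun q => q.Coprime 10),
      |(((range (10 ^ (2 * L + 1))).filter (fun n => 10 ^ (2 * L) ≤ n ∧
          (Nat.digits 10 n).reverse = Nat.digits 10 n ∧ n ≡ h q [MOD q])).card : ℝ)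
          - 9 * 10 ^ L / q| ≤ 10 ^ L / (L : ℝ) ^ A := by
  filter_upwards [BV_all_gen (fun L => ⌊(10 : ℝ) ^ ((3 / 5 : ℝ) * L)⌋₊) hBV A] with L hL h
  refine le_trans (le_of_eq ?_) (hL h)
  refine sum_congr rfl fun q _ => ?_
  congr 4
  unfold palin
  rw [filter_filter]
  refine filter_congr fun n _ => ?_
  constructor
  · rintro ⟨h1, h2, h3⟩; exact ⟨⟨h1, h2⟩, h3⟩
  · rintro ⟨⟨h1, h2⟩, h3⟩; exact ⟨h1, h2, h3⟩

end Pool.Agent.H459R2.PalQ6
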